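import Pool.Agent.W5h7.SNL.Consts
import Pool.Agent.TH285.SN.Odd

set_option autoImplicit false

/-!
# Tuples made of polynomial values and constants
-/

namespace Pool.Agent.W5h7.SNL

open Finset
open Pool.Agent.TH285.SN (Adm rad rad_le_of)

/-- no non-empty proper sub-sum vanishes -/
def NoSub {n : ℕ} (x : Fin n → ℤ) : Prop :=
  ∀ S : Finset (Fin n), S.Nonempty → S ≠ Finset.univ → ∑ i ∈ S, x i ≠ 0

theorem adm_append {k r : ℕ} {f : Fin k → ℤ} {d : Fin r → ℤ} (hf0 : ∀ i, f i ≠ 0)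
    (hd0 : ∀ i, d i ≠ 0) (hff : ∀ i j, i ≠ j → IsCoprime (f i) (f j))
    (hdd : ∀ i j, i ≠ j → IsCoprime (d i) (d j)) (hfd : ∀ i j, IsCoprime (f i) (d j))
    (hsum : ∑ i, f i + ∑ j, d j = 0) : Adm (Fin.append f d) := by
  refine ⟨?_, ?_, ?_⟩
  · intro i
    refine Fin.addCases (fun i => ?_) (fun i => ?_) i
    · rw [Fin.append_left]; exact hf0 i
    · rw [Fin.append_right]; exact hd0 i
  · intro i j
    rw [← Int.isCoprime_iff_gcd_eq_one]
    refine Fin.addCases (fun i => ?_) (fun i => ?_) i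
    · refine Fin.addCases (fun j => ?_) (fun j => ?_) j
      · intro h
        rw [Fin.append_left, Fin.append_left]
        exact hff i j fun h' => h (by rw [h'])
      · intro _
        rw [Fin.append_left, Fin.append_right]
        exact hfd i j
    · refine Fin.addCases (fun j => ?_) (fun j => ?_) j
      · intro _
        rw [Fin.append_left, Fin.append_right]
        exact (hfd j i).symm
      · intro h
        rw [Fin.append_right, Fin.append_right]
        exact hdd i j fun h' => h (by rw [h'])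
  · rw [Fin.sum_univ_add]
    simp only [Fin.append_left, Fin.append_right]
    exact hsum

theorem noSub_append {k r : ℕ} {f : Fin k → ℤ} {d : Fin r → ℤ}
    (hsum : ∑ i, f i + ∑ j, d j = 0)
    (hd : ∀ S : Finset (Fin r), S.Nonempty → ∑ i ∈ S, d i ≠ 0)
    (hf : ∀ S : Finset (Fin k), S.Nonempty → S ≠ univ → ∑ j, |d j| < |∑ i ∈ S, f i|) :
    NoSub (Fin.append f d) := by
  classical
  intro S hS hSu hzero
  set S1 : Finset (Fin k) := univ.filter fun i => Fin.castAdd r i ∈ S with hS1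
  set S2 : Finset (Fin r) := univ.filter fun j => Fin.natAdd k j ∈ S with hS2
  have hsplit : ∑ i ∈ S, Fin.append f d i = ∑ i ∈ S1, f i + ∑ j ∈ S2, d j := by
    have h1 : ∑ i ∈ S, Fin.append f d i = ∑ i, if i ∈ S then Fin.append f d i else 0 := by
      rw [← sum_filter]
      congr 1
      ext i; simp
    rw [h1, Fin.sum_univ_add, hS1, hS2, sum_filter, sum_filter]
    simp only [Fin.append_left, Fin.append_right]
  rw [hsplit] at hzero
  by_cases h1 : S1 = ∅
  · rw [h1, sum_empty, zero_add] at hzero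
    refine hd S2 ?_ hzero
    obtain ⟨i, hi⟩ := hS
    revert hi
    refine Fin.addCases (fun i => ?_) (fun i => ?_) i
    · intro hi
      have : i ∈ S1 := mem_filter.2 ⟨mem_univ _, hi⟩
      rw [h1] at this
      exact absurd this (notMem_empty _)
    · intro hi
      exact ⟨i, mem_filter.2 ⟨mem_univ _, hi⟩⟩
  · by_cases h2 : S1 = univ
    · rw [h2] at hzero
      have h3 : ∑ j ∈ S2ᶜ, d j = 0 := by
        have h4 := sum_add_sum_compl S2 d
        linarith
      rcases Finset.eq_empty_or_nonempty S2ᶜ with h | h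
      · apply hSu
        have h5 : S2 = univ := by
          rw [← compl_compl S2, h, compl_empty]
        ext i
        refine Fin.addCases (fun i => ?_) (fun i => ?_) i
        · have h6 : i ∈ S1 := by rw [h2]; exact mem_univ _
          simp only [mem_univ, iff_true]
          exact (mem_filter.1 h6).2
        · have h6 : i ∈ S2 := by rw [h5]; exact mem_univ _
          simp only [mem_univ, iff_true]
          exact (mem_filter.1 h6).2
      · exact hd _ h h3
    · have h3 := hf S1 (nonempty_iff_ne_empty.2 h1) h2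
      have h4 : ∑ i ∈ S1, f i = -∑ j ∈ S2, d j := by linarith
      rw [h4, abs_neg] at h3
      have h5 : |∑ j ∈ S2, d j| ≤ ∑ j, |d j| :=
        (abs_sum_le_sum_abs _ _).trans
          (sum_le_sum_of_subset_of_nonneg (subset_univ _) fun _ _ _ => abs_nonneg _)
      linarith

theorem rad_append_le {k r : ℕ} (f : Fin k → ℤ) (d : Fin r → ℤ) {W : ℕ} (hW : 0 < W)
    (hf : ∀ p : ℕ, p.Prime → ∀ i, (p : ℤ) ∣ f i → p ∣ W)
    (hd : ∀ p : ℕ, p.Prime → ∀ i, (p : ℤ) ∣ d i → p ∣ W) : rad (Fin.append f d) ≤ W := by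
  refine rad_le_of _ W hW fun p hp i => ?_
  refine Fin.addCases (fun i => ?_) (fun i => ?_) i
  · rw [Fin.append_left]; exact hf p hp i
  · rw [Fin.append_right]; exact hd p hp i

/-- the final inequality -/
theorem final {dg s : ℕ} (hs : 0 < s) {C A R X ρ σ : ℕ} (hR : 1 ≤ R) (hC : 1 ≤ C)
    (h1 : R ≤ C * (ρ * σ) * X ^ (s - 1))
    (h2 : (ρ : ℝ) * σ * Real.log X ^ (A + 1) ≤ X) (h3 : C ≤ X)
    (h4 : ((s : ℝ) + 1) ^ A * C ≤ Real.log X) (h5 : 1 ≤ Real.log X) :
    ((R : ℝ) * Real.log R ^ A) ^ ((dg : ℝ) / s) ≤ (X : ℝ) ^ dg := by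
  obtain ⟨s', rfl⟩ : ∃ s', s = s' + 1 := ⟨s - 1, by omega⟩
  rw [Nat.add_sub_cancel] at h1
  have hR' : (1 : ℝ) ≤ R := by exact_mod_cast hR
  have hC' : (1 : ℝ) ≤ C := by exact_mod_cast hC
  have hX1 : 1 ≤ X := hC.trans h3
  have hX' : (1 : ℝ) ≤ X := by exact_mod_cast hX1
  have hs' : (0 : ℝ) < ((s' + 1 : ℕ) : ℝ) := by positivity
  have h3' : (C : ℝ) ≤ X := by exact_mod_cast h3
  have h1' : (R : ℝ) ≤ C * (ρ * σ) * (X : ℝ) ^ s' := by exact_mod_cast h1
  have hl0 : 0 < Real.log X := by linarith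
  have hlA : 1 ≤ Real.log X ^ (A + 1) := one_le_pow₀ h5
  have hρσ : (ρ : ℝ) * σ ≤ X := by
    have h6 : (ρ : ℝ) * σ * 1 ≤ (ρ : ℝ) * σ * Real.log X ^ (A + 1) :=
      mul_le_mul_of_nonneg_left hlA (by positivity)
    linarith
  have hRX : (R : ℝ) ≤ C * (X : ℝ) ^ (s' + 1) := by
    calc (R : ℝ) ≤ C * (ρ * σ) * (X : ℝ) ^ s' := h1'
      _ ≤ C * X * (X : ℝ) ^ s' := by gcongr
      _ = C * (X : ℝ) ^ (s' + 1) := by rw [pow_succ]; ring
  have hlR : Real.log R ≤ (((s' + 1 : ℕ) : ℝ) + 1) * Real.log X := by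
    have h6 := Real.log_le_log (by linarith) hRX
    rw [Real.log_mul (by positivity) (by positivity), Real.log_pow] at h6
    have h7 : Real.log C ≤ Real.log X := Real.log_le_log (by linarith) h3'
    linarith
  have hlR0 : 0 ≤ Real.log R := Real.log_nonneg hR'
  have hm : (R : ℝ) * Real.log R ^ A ≤ (X : ℝ) ^ (s' + 1) := by
    have h6 : (R : ℝ) * Real.log R ^ A * Real.log X ≤ (X : ℝ) ^ (s' + 1) * Real.log X := by
      calc (R : ℝ) * Real.log R ^ A * Real.log X
          ≤ R * ((((s' + 1 : ℕ) : ℝ) + 1) * Real.log X) ^ A * Real.log X := by gcongr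
        _ = (((s' + 1 : ℕ) : ℝ) + 1) ^ A * (R * Real.log X ^ (A + 1)) := by
            rw [mul_pow, pow_succ]; ring
        _ ≤ (((s' + 1 : ℕ) : ℝ) + 1) ^ A *
            ((C * (ρ * σ) * (X : ℝ) ^ s') * Real.log X ^ (A + 1)) := by gcongr
        _ = (((s' + 1 : ℕ) : ℝ) + 1) ^ A * C *
            ((ρ * σ * Real.log X ^ (A + 1)) * (X : ℝ) ^ s') := by ring
        _ ≤ (((s' + 1 : ℕ) : ℝ) + 1) ^ A * C * (X * (X : ℝ) ^ s') := by gcongr
        _ ≤ Real.log X * (X * (X : ℝ) ^ s') := by gcongr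
        _ = (X : ℝ) ^ (s' + 1) * Real.log X := by rw [pow_succ]; ring
    exact le_of_mul_le_mul_right h6 hl0
  have h0 : 0 ≤ (R : ℝ) * Real.log R ^ A := by positivity
  calc ((R : ℝ) * Real.log R ^ A) ^ ((dg : ℝ) / ((s' + 1 : ℕ) : ℝ))
      ≤ ((X : ℝ) ^ (s' + 1)) ^ ((dg : ℝ) / ((s' + 1 : ℕ) : ℝ)) :=
        Real.rpow_le_rpow h0 hm (by positivity)
    _ = (X : ℝ) ^ dg := by
        rw [← Real.rpow_natCast (X : ℝ) (s' + 1), ← Real.rpow_mul (by linarith),
          mul_div_cancel₀ _ hs'.ne', Real.rpow_natCast]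

end Pool.Agent.W5h7.SNL
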