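import Mathlib

set_option autoImplicit false

/-!
# Pairwise coprime integers with a prescribed sum and no vanishing sub-sum
-/

namespace Pool.Agent.W5h7.SNL

open Finset

theorem avoid (S : Finset ℕ) (hS : ∀ p ∈ S, p.Prime) {T : ℤ} (hT : Even T) :
    ∃ r : ℤ, ∀ p ∈ S, ¬ (p : ℤ) ∣ r ∧ ¬ (p : ℤ) ∣ T - r := by
  classical
  set S1 := S.filter (fun p : ℕ => (p : ℤ) ∣ T - 1) with hS1
  set S2 := S.filter (fun p : ℕ => ¬ (p : ℤ) ∣ T - 1) with hS2
  have hcop : IsCoprime (∏ p ∈ S1, (p : ℤ)) (∏ p ∈ S2, (p : ℤ)) := by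
    refine IsCoprime.prod_left fun p hp => IsCoprime.prod_right fun q hq => ?_
    obtain ⟨hp1, hp2⟩ := mem_filter.1 hp
    obtain ⟨hq1, hq2⟩ := mem_filter.1 hq
    rw [Nat.isCoprime_iff_coprime, Nat.coprime_primes (hS p hp1) (hS q hq1)]
    rintro rfl
    exact hq2 hp2
  obtain ⟨u, v, huv⟩ := hcop
  refine ⟨u * (∏ p ∈ S1, (p : ℤ)) - v * ∏ p ∈ S2, (p : ℤ), fun p hp => ?_⟩
  have hpI : Prime (p : ℤ) := Nat.prime_iff_prime_int.mp (hS p hp)
  by_cases h : (p : ℤ) ∣ T - 1
  · have hd : (p : ℤ) ∣ ∏ p ∈ S1, (p : ℤ) :=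
      dvd_prod_of_mem (fun p : ℕ => (p : ℤ)) (mem_filter.2 ⟨hp, h⟩)
    obtain ⟨w, hw⟩ := hd
    rw [hw] at huv ⊢
    have h2 : ¬ (p : ℤ) ∣ 2 := by
      intro h2
      have h3 : (2 : ℤ) ∣ T - 1 := by
        have : (p : ℤ) = 2 := by
          have h4 : p ∣ 2 := by exact_mod_cast h2
          have h5 := (Nat.prime_dvd_prime_iff_eq (hS p hp) Nat.prime_two).1 h4
          exact_mod_cast h5
        rwa [this] at h
      obtain ⟨t, ht⟩ := hT
      omega
    constructor
    · intro h3
      have h4 : (p : ℤ) ∣ 1 := by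
        have e : (1 : ℤ) = -(u * (p * w) - v * ∏ p ∈ S2, (p : ℤ)) + p * (2 * u * w) := by
          rw [← huv]; ring
        rw [e]
        exact dvd_add ((dvd_neg).2 h3) (Dvd.intro _ rfl)
      exact hpI.not_dvd_one h4
    · intro h3
      apply h2
      have e : (2 : ℤ) = (T - (u * (p * w) - v * ∏ p ∈ S2, (p : ℤ))) - (T - 1) +
          p * (2 * u * w) := by linear_combination (-1 : ℤ) * huv
      rw [e]
      exact dvd_add (dvd_sub h3 h) (Dvd.intro _ rfl)
  · have hd : (p : ℤ) ∣ ∏ p ∈ S2, (p : ℤ) :=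
      dvd_prod_of_mem (fun p : ℕ => (p : ℤ)) (mem_filter.2 ⟨hp, h⟩)
    obtain ⟨w, hw⟩ := hd
    rw [hw] at huv ⊢
    constructor
    · intro h3
      have h4 : (p : ℤ) ∣ 1 := by
        have e : (1 : ℤ) = (u * (∏ p ∈ S1, (p : ℤ)) - v * (p * w)) + p * (2 * v * w) := by
          linear_combination (-1 : ℤ) * huv
        rw [e]
        exact dvd_add h3 (Dvd.intro _ rfl)
      exact hpI.not_dvd_one h4
    · intro h3
      apply h
      have e : T - 1 = (T - (u * (∏ p ∈ S1, (p : ℤ)) - v * (p * w))) - p * (2 * v * w) := by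
        linear_combination huv
      rw [e]
      exact dvd_sub h3 (Dvd.intro _ rfl)

theorem cop_of_primes {u : ℤ} {N : ℕ} (hN : N ≠ 0)
    (h : ∀ p ∈ N.primeFactors, ¬ (p : ℤ) ∣ u) : IsCoprime u (N : ℤ) := by
  rw [Int.isCoprime_iff_gcd_eq_one]
  by_contra hg
  obtain ⟨p, hp, hpg⟩ := Nat.exists_prime_and_dvd hg
  have h1 : p ∣ u.natAbs := hpg.trans (Nat.gcd_dvd_left _ _)
  have h2 : p ∣ N := by
    have := hpg.trans (Nat.gcd_dvd_right _ _)
    simpa using this
  exact h p (Nat.mem_primeFactors.2 ⟨hp, h2, hN⟩) (Int.natCast_dvd.mpr h1)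

theorem exists_pair {T : ℤ} (hT : Even T) (hT0 : T ≠ 0) {Q : ℕ} (hQ : 0 < Q) (B : ℤ) :
    ∃ y : ℤ, B < y ∧ IsCoprime y Q ∧ IsCoprime (T - y) Q ∧ IsCoprime y (T - y) := by
  set N : ℕ := Q * T.natAbs with hN
  have hN0 : N ≠ 0 := (Nat.mul_pos hQ (Int.natAbs_pos.2 hT0)).ne'
  have hNpos : (0 : ℤ) < N := by exact_mod_cast Nat.pos_of_ne_zero hN0
  obtain ⟨r, hr⟩ := avoid N.primeFactors (fun p hp => Nat.prime_of_mem_primeFactors hp) hT
  set k : ℤ := |B - r| + 1 with hk
  have hk1 : B - r < k := by have := le_abs_self (B - r); omega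
  have hk0 : 0 < k := by have := abs_nonneg (B - r); omega
  have hd : ∀ p ∈ N.primeFactors, (p : ℤ) ∣ N := fun p hp => by
    exact_mod_cast Nat.dvd_of_mem_primeFactors hp
  have c1 : IsCoprime (r + N * k) (N : ℤ) := cop_of_primes hN0 fun p hp h => by
    apply (hr p hp).1
    have := dvd_sub h (Dvd.dvd.mul_right (hd p hp) k)
    rwa [add_sub_cancel_right] at this
  have c2 : IsCoprime (T - (r + N * k)) (N : ℤ) := cop_of_primes hN0 fun p hp h => by
    apply (hr p hp).2
    have := dvd_add h (Dvd.dvd.mul_right (hd p hp) k)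
    have e : T - (r + N * k) + N * k = T - r := by ring
    rwa [e] at this
  have hQN : (Q : ℤ) ∣ N := by rw [hN]; push_cast; exact Dvd.intro _ rfl
  have hTN : T ∣ N := by
    rw [hN]; push_cast
    exact Dvd.dvd.mul_left (self_dvd_abs T) _
  refine ⟨r + N * k, ?_, c1.of_isCoprime_of_dvd_right hQN, c2.of_isCoprime_of_dvd_right hQN, ?_⟩
  · have : 1 * k ≤ N * k := mul_le_mul_of_nonneg_right (by omega) hk0.le
    linarith
  · have h1 : IsCoprime (r + N * k) T := c1.of_isCoprime_of_dvd_right hTN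
    have := h1.add_mul_left_right (-1)
    have e : T + (r + N * k) * -1 = T - (r + N * k) := by ring
    rwa [e] at this

theorem exists_consts (k : ℕ) : ∀ (T : ℤ) (Q : ℕ) (B : ℤ), T ≠ 0 → 0 < Q → Even Q →
    Even (T - k) → 0 ≤ B → ∃ d : Fin (k + 2) → ℤ, (∀ i, IsCoprime (d i) Q) ∧
      (∀ i j, i ≠ j → IsCoprime (d i) (d j)) ∧ ∑ i, d i = T ∧
      ∀ i, i ≠ Fin.last (k + 1) → B < d i := by
  induction k with
  | zero =>
    intro T Q B hT0 hQ hQe hT hB
    have hT' : Even T := by simpa using hT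
    obtain ⟨y, h1, h2, h3, h4⟩ := exists_pair hT' hT0 hQ B
    refine ⟨![y, T - y], ?_, ?_, ?_, ?_⟩
    · intro i; fin_cases i
      · exact h2
      · exact h3
    · intro i j hij
      fin_cases i <;> fin_cases j
      · exact absurd rfl hij
      · exact h4
      · exact h4.symm
      · exact absurd rfl hij
    · simp
    · intro i hi
      fin_cases i
      · exact h1
      · exact absurd rfl hi
  | succ k ih =>
    intro T Q B hT0 hQ hQe hT hB
    set y : ℕ := 1 + Q * (T.natAbs + B.toNat + 1) with hy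
    have hyQ : (T.natAbs + B.toNat + 1) ≤ Q * (T.natAbs + B.toNat + 1) :=
      Nat.le_mul_of_pos_left _ hQ
    have hyT : T.natAbs < y := by omega
    have hyB : B < y := by
      have : B.toNat < y := by omega
      have h2 : ((B.toNat : ℕ) : ℤ) = B := Int.toNat_of_nonneg hB
      rw [← h2]
      exact_mod_cast this
    have hy0 : 0 < y := by omega
    have hycop : IsCoprime (y : ℤ) Q := by
      rw [hy]
      push_cast
      exact isCoprime_one_left.add_mul_left_left _
    have hT' : T - y ≠ 0 := by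
      intro h
      have h1 : T = y := by linarith
      have h2 : T.natAbs = y := by rw [h1]; simp
      omega
    have hyodd : ∃ t : ℤ, (y : ℤ) = 1 + 2 * t := by
      obtain ⟨z, hz⟩ := hQe
      refine ⟨z * (T.natAbs + B.toNat + 1), ?_⟩
      rw [hy, hz]; push_cast; ring
    have hpar : Even (T - y - k) := by
      obtain ⟨t, ht⟩ := hyodd
      obtain ⟨s, hs⟩ := hT
      refine ⟨s - t, ?_⟩
      push_cast at hs
      linarith
    obtain ⟨d, h1, h2, h3, h4⟩ := ih (T - y) (Q * y) B hT' (Nat.mul_pos hQ hy0)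
      (hQe.mul_right _) hpar hB
    have h1Q : ∀ i, IsCoprime (d i) Q := fun i =>
      (h1 i).of_isCoprime_of_dvd_right (by push_cast; exact Dvd.intro _ rfl)
    have h1y : ∀ i, IsCoprime (d i) y := fun i =>
      (h1 i).of_isCoprime_of_dvd_right (by push_cast; exact Dvd.intro_left _ rfl)
    refine ⟨Fin.cons (y : ℤ) d, ?_, ?_, ?_, ?_⟩
    · intro i
      refine Fin.cases ?_ (fun i => ?_) i
      · rw [Fin.cons_zero]; exact hycop
      · rw [Fin.cons_succ]; exact h1Q i
    · intro i j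
      refine Fin.cases ?_ (fun i => ?_) i
      · refine Fin.cases ?_ (fun j => ?_) j
        · intro h; exact absurd rfl h
        · intro _
          rw [Fin.cons_zero, Fin.cons_succ]
          exact (h1y j).symm
      · refine Fin.cases ?_ (fun j => ?_) j
        · intro _
          rw [Fin.cons_zero, Fin.cons_succ]
          exact h1y i
        · intro h
          rw [Fin.cons_succ, Fin.cons_succ]
          exact h2 i j fun h' => h (by rw [h'])
    · rw [Fin.sum_univ_succ, Fin.cons_zero]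
      simp only [Fin.cons_succ]
      rw [h3]; ring
    · intro i
      refine Fin.cases ?_ (fun i => ?_) i
      · intro _; rw [Fin.cons_zero]; exact hyB
      · intro h
        rw [Fin.cons_succ]
        refine h4 i fun h' => h ?_
        rw [h']
        rfl

/-- no non-empty sub-sum vanishes -/
theorem no_zero_subsum {k : ℕ} {d : Fin (k + 2) → ℤ} {T : ℤ} (hT : T ≠ 0) (hsum : ∑ i, d i = T)
    (hB : ∀ i, i ≠ Fin.last (k + 1) → |T| < d i) (S : Finset (Fin (k + 2))) (hS : S.Nonempty) :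
    ∑ i ∈ S, d i ≠ 0 := by
  have hpos : ∀ i, i ≠ Fin.last (k + 1) → 0 < d i := fun i hi =>
    lt_of_le_of_lt (abs_nonneg T) (hB i hi)
  by_cases hl : Fin.last (k + 1) ∈ S
  · have h1 : ∑ i ∈ S, d i + ∑ i ∈ Sᶜ, d i = T := by rw [sum_add_sum_compl, hsum]
    rcases Finset.eq_empty_or_nonempty Sᶜ with h | h
    · rw [h, sum_empty, add_zero] at h1
      rw [h1]; exact hT
    · obtain ⟨j, hj⟩ := h
      have h2 : d j ≤ ∑ i ∈ Sᶜ, d i := by
        refine single_le_sum (f := d) (fun i hi => (hpos i ?_).le) hj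
        rintro rfl
        exact (mem_compl.1 hi) hl
      have h3 : |T| < d j := hB j (by
        rintro rfl
        exact (mem_compl.1 hj) hl)
      have h4 := le_abs_self T
      intro h5
      linarith
  · have : 0 < ∑ i ∈ S, d i := by
      refine sum_pos (fun i hi => hpos i ?_) hS
      rintro rfl
      exact hl hi
    exact this.ne'

end Pool.Agent.W5h7.SNL
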