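import Pool.Agent.W5h7.SNL.OddCase
import Pool.Agent.TH96.NC.Even3

set_option autoImplicit false

/-!
# Even `n ≥ 6`
-/

namespace Pool.Agent.W5h7.SNL

open Finset
open Pool.Agent.TH285.SN (Adm rad rad_le_of one_le_rad)

theorem subsets4 : ∀ S : Finset (Fin 4), S ≠ ∅ → S ≠ univ →
    ∃ i, S = {i} ∨ S = {i}ᶜ ∨ (i ≠ 0 ∧ (S = {0, i} ∨ S = {0, i}ᶜ)) := by
  decide

theorem even_case {k : ℕ} (hk : Even k) (A N : ℕ) : ∃ x : Fin (4 + (k + 2)) → ℤ, Adm x ∧ NoSub x ∧
    ((rad x : ℝ) * Real.log (rad x) ^ A) ^ (((7 : ℕ) : ℝ) / (5 : ℕ)) ≤ |((x 0 : ℤ) : ℝ)| ∧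
    N < (x 0).natAbs := by
  obtain ⟨d, hdQ, hdd, hdsum, hdbig⟩ := exists_consts k (-1369826131968)
    (210 * 47 * 11191 * 6865) |(-1369826131968)| (by norm_num) (by norm_num)
    (by decide) (by
      obtain ⟨t, ht⟩ := hk
      refine ⟨-684913065984 - t, ?_⟩
      rw [ht]; push_cast; ring) (by norm_num)
  have hdz := no_zero_subsum (by norm_num) hdsum hdbig
  have hd0 : ∀ j, d j ≠ 0 := fun j => by
    have := hdz {j} (singleton_nonempty j)
    simpa using this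
  set D : ℕ := ∏ j, (d j).natAbs with hD
  have hD0 : 0 < D := prod_pos fun j _ => Int.natAbs_pos.2 (hd0 j)
  set E : ℕ := ∑ j, (d j).natAbs with hE
  have hEabs : (E : ℤ) = ∑ j, |d j| := by
    rw [hE]; push_cast; rfl
  obtain ⟨X, ρ, σ, hXB, hXL, hρ0, hσ0, hρ, hσ, hmain⟩ :=
    exists_small (L := 210 * 1369826131969 * D) (by omega) (a := 48) (by norm_num) 1 (A + 1)
      (⌈Real.exp (((5 : ℕ) + 1 : ℝ) ^ A * (7495 * 7 * 6337 * D : ℕ))⌉₊ + 7495 * 7 * 6337 * D +
        E + N + 1369826131968 + 1000)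
  obtain ⟨z', hz'⟩ := hXL
  have hz : (X : ℤ) = 1 + TH96.NC.cL * (D * z') := by
    unfold TH96.NC.cL TH96.NC.cA
    push_cast at hz'
    linarith
  have h48 : (48 : ℤ) < X := by
    have : 48 < X := by omega
    exact_mod_cast this
  have hXE : (E : ℤ) + 1369826131968 + 1000 < X := by
    have : E + 1369826131968 + 1000 < X := by omega
    exact_mod_cast this
  have hE0 : (0 : ℤ) ≤ E := Int.natCast_nonneg E
  set f : Fin 4 → ℤ := fun i => TH96.NC.ent (X : ℤ) i with hf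
  have hf0 : f 0 = (X : ℤ) ^ 7 := rfl
  have hf1 : f 1 = -((X : ℤ) - 48) ^ 7 := rfl
  have hf2 : f 2 = -(7 * ((X : ℤ) - 24) ^ 2 + 7488) ^ 3 := rfl
  have hf3 : f 3 = 7 * (((X : ℤ) - 24) ^ 2 + 6336) ^ 3 := rfl
  have hfsum : ∑ i, f i = 1369826131968 := by
    rw [Fin.sum_univ_four, hf0, hf1, hf2, hf3]; ring
  have hff : ∀ i j, i ≠ j → IsCoprime (f i) (f j) := by
    intro i j hij
    have hne : (i : ℕ) ≠ (j : ℕ) := fun h => hij (Fin.ext h)
    rcases lt_or_gt_of_ne hne with h | h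
    · exact TH96.NC.ent_cop hz _ _ h
    · exact (TH96.NC.ent_cop hz _ _ h).symm
  have hfd : ∀ i j, IsCoprime (f i) (d j) := by
    intro i j
    obtain ⟨w, hw⟩ : d j ∣ (D : ℤ) := by
      have h1 : (d j).natAbs ∣ D := dvd_prod_of_mem (fun j => (d j).natAbs) (mem_univ j)
      exact Int.natAbs_dvd.1 (by exact_mod_cast h1)
    obtain ⟨v, hX⟩ : ∃ v : ℤ, (X : ℤ) = 1 + d j * v := ⟨TH96.NC.cL * w * z', by
      rw [hz, hw]; ring⟩
    have hQ : ∀ c : ℤ, c ∣ ((210 * 47 * 11191 * 6865 : ℕ) : ℤ) → IsCoprime c (d j) := fun c hc =>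
      ((hdQ j).of_isCoprime_of_dvd_right hc).symm
    have c1 : IsCoprime (X : ℤ) (d j) := TH285.SN.cop_of isCoprime_one_left hX
    have c2 : IsCoprime ((X : ℤ) - 48) (d j) :=
      TH285.SN.cop_of (c := -47) (w := v) (hQ _ (by norm_num)) (by rw [hX]; ring)
    have c3 : IsCoprime (7 * ((X : ℤ) - 24) ^ 2 + 7488) (d j) :=
      TH285.SN.cop_of (c := 11191) (w := 7 * (v * (d j * v - 46))) (hQ _ (by norm_num))
        (by rw [hX]; ring)
    have c4 : IsCoprime (((X : ℤ) - 24) ^ 2 + 6336) (d j) :=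
      TH285.SN.cop_of (c := 6865) (w := v * (d j * v - 46)) (hQ _ (by norm_num))
        (by rw [hX]; ring)
    have c5 : IsCoprime (7 : ℤ) (d j) := hQ _ (by norm_num)
    fin_cases i
    · exact c1.pow_left
    · exact (c2.pow_left).neg_left
    · exact (c3.pow_left).neg_left
    · exact c5.mul_left c4.pow_left
  have hlarge : ∀ i, (E : ℤ) + 1369826131968 < |f i| := by
    intro i
    fin_cases i
    · show (E : ℤ) + 1369826131968 < |f 0|
      rw [hf0, abs_of_nonneg (by positivity)]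
      have := le_self_pow₀ (by linarith : (1 : ℤ) ≤ X) (by norm_num : (7 : ℕ) ≠ 0)
      linarith
    · show (E : ℤ) + 1369826131968 < |f 1|
      rw [hf1, abs_neg, abs_of_nonneg (pow_nonneg (by linarith) 7)]
      have := le_self_pow₀ (by linarith : (1 : ℤ) ≤ (X : ℤ) - 48) (by norm_num : (7 : ℕ) ≠ 0)
      linarith
    · show (E : ℤ) + 1369826131968 < |f 2|
      rw [hf2, abs_neg, abs_of_nonneg (by positivity)]
      have h1 := le_self_pow₀ (by linarith : (1 : ℤ) ≤ (X : ℤ) - 24) (by norm_num : (2 : ℕ) ≠ 0)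
      have h2 := le_self_pow₀ (by linarith : (1 : ℤ) ≤ 7 * ((X : ℤ) - 24) ^ 2 + 7488)
        (by norm_num : (3 : ℕ) ≠ 0)
      linarith
    · show (E : ℤ) + 1369826131968 < |f 3|
      rw [hf3, abs_of_nonneg (by positivity)]
      have h1 := le_self_pow₀ (by linarith : (1 : ℤ) ≤ (X : ℤ) - 24) (by norm_num : (2 : ℕ) ≠ 0)
      have h2 := le_self_pow₀ (by linarith : (1 : ℤ) ≤ ((X : ℤ) - 24) ^ 2 + 6336)
        (by norm_num : (3 : ℕ) ≠ 0)
      linarith
  have hlarge2 : ∀ i, i ≠ 0 → (E : ℤ) + 1369826131968 < |f 0 + f i| := by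
    obtain ⟨Y, hY⟩ : ∃ Y : ℤ, (X : ℤ) = Y + 48 := ⟨X - 48, by ring⟩
    have hY1 : (E : ℤ) + 1369826131968 < Y := by linarith
    have hY0 : 1 ≤ Y := by linarith
    intro i hi
    refine lt_of_lt_of_le hY1 (le_trans ?_ (le_abs_self _))
    fin_cases i
    · exact absurd rfl hi
    · show Y ≤ f 0 + f 1
      rw [hf0, hf1, hY]
      have h1 : Y ≤ Y ^ 6 := le_self_pow₀ hY0 (by norm_num)
      have h2 : (Y + 48) ^ 7 + -(Y + 48 - 48) ^ 7 = Y ^ 6 + (335 * Y ^ 6 + 48384 * Y ^ 5 +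
          3870720 * Y ^ 4 + 185794560 * Y ^ 3 + 5350883328 * Y ^ 2 + 85614133248 * Y +
          587068342272) := by ring
      rw [h2]
      have h3 : 0 ≤ 335 * Y ^ 6 + 48384 * Y ^ 5 +
          3870720 * Y ^ 4 + 185794560 * Y ^ 3 + 5350883328 * Y ^ 2 + 85614133248 * Y +
          587068342272 := by positivity
      linarith
    · show Y ≤ f 0 + f 2
      rw [hf0, hf2]
      have h1 : 7 * ((X : ℤ) - 24) ^ 2 + 7488 ≤ 7 * (X : ℤ) ^ 2 := by nlinarith
      have h2 : (7 * ((X : ℤ) - 24) ^ 2 + 7488) ^ 3 ≤ (7 * (X : ℤ) ^ 2) ^ 3 :=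
        pow_le_pow_left₀ (by positivity) h1 3
      have h3 : (X : ℤ) ≤ (X : ℤ) ^ 6 := le_self_pow₀ (by linarith) (by norm_num)
      have h4 : (X : ℤ) ^ 6 * 344 ≤ (X : ℤ) ^ 6 * X :=
        mul_le_mul_of_nonneg_left (by linarith) (by positivity)
      have h5 : (7 * (X : ℤ) ^ 2) ^ 3 = 343 * (X : ℤ) ^ 6 := by ring
      have h6 : (X : ℤ) ^ 7 = (X : ℤ) ^ 6 * X := by ring
      rw [h6]
      linarith
    · show Y ≤ f 0 + f 3
      rw [hf0, hf3]
      have h3 : (X : ℤ) ≤ (X : ℤ) ^ 7 := le_self_pow₀ (by linarith) (by norm_num)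
      have h4 : 0 ≤ 7 * (((X : ℤ) - 24) ^ 2 + 6336) ^ 3 := by positivity
      linarith
  have hsum : ∑ i, f i + ∑ j, d j = 0 := by rw [hfsum, hdsum]; norm_num
  have hadm : Adm (Fin.append f d) :=
    adm_append (fun i => TH96.NC.ent_ne h48 i) hd0 hff hdd hfd hsum
  have hcompl : ∀ s : ℤ, (E : ℤ) + 1369826131968 < |s| → (E : ℤ) < |1369826131968 - s| := by
    intro s hs
    have h4 : |s| ≤ |1369826131968 - s| + |(1369826131968 : ℤ)| := by
      have := abs_sub (1369826131968 - s) 1369826131968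
      have e : 1369826131968 - s - 1369826131968 = -s := by ring
      rwa [e, abs_neg] at this
    have h5 : |(1369826131968 : ℤ)| = 1369826131968 := by norm_num
    rw [h5] at h4
    linarith
  have hns : NoSub (Fin.append f d) := by
    refine noSub_append hsum hdz fun S hS hSu => ?_
    rw [← hEabs]
    have hc : ∀ S' : Finset (Fin 4), ∑ i ∈ S'ᶜ, f i = 1369826131968 - ∑ i ∈ S', f i := by
      intro S'
      have h1 := sum_add_sum_compl S' f
      rw [hfsum] at h1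
      linarith
    obtain ⟨i, h | h | ⟨hi, h | h⟩⟩ := subsets4 S (nonempty_iff_ne_empty.1 hS) hSu
    · rw [h, sum_singleton]
      have := hlarge i
      linarith
    · rw [h, hc, sum_singleton]
      exact hcompl _ (hlarge i)
    · rw [h, sum_pair hi.symm]
      have := hlarge2 i hi
      linarith
    · rw [h, hc, sum_pair hi.symm]
      exact hcompl _ (hlarge2 i hi)
  have hrad : rad (Fin.append f d) ≤ ρ * σ * ((7 * (X - 24) ^ 2 + 7488) *
      (7 * ((X - 24) ^ 2 + 6336))) * D := by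
    have e2 : ((X : ℤ) - 24) = ((X - 24 : ℕ) : ℤ) := by omega
    refine rad_append_le f d (by positivity) ?_ ?_
    · intro p hp i hpi
      have hpI : Prime (p : ℤ) := Nat.prime_iff_prime_int.mp hp
      fin_cases i
      · have h1 : (p : ℤ) ∣ (X : ℤ) ^ 7 := hpi
        have h2 : p ∣ X := by exact_mod_cast hpI.dvd_of_dvd_pow h1
        exact ((hρ p hp h2).mul_right _).mul_right _ |>.mul_right _
      · have h1 : (p : ℤ) ∣ -((X : ℤ) - 48) ^ 7 := hpi
        have h2 := hpI.dvd_of_dvd_pow ((dvd_neg).1 h1)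
        exact ((hσ p hp h2).mul_left _).mul_right _ |>.mul_right _
      · have h1 : (p : ℤ) ∣ -(7 * ((X : ℤ) - 24) ^ 2 + 7488) ^ 3 := hpi
        have h2 := hpI.dvd_of_dvd_pow ((dvd_neg).1 h1)
        rw [e2] at h2
        have h0 : p ∣ 7 * (X - 24) ^ 2 + 7488 := by exact_mod_cast h2
        exact ((h0.mul_right _).mul_left _).mul_right _
      · have h1 : (p : ℤ) ∣ 7 * (((X : ℤ) - 24) ^ 2 + 6336) ^ 3 := hpi
        have h0 : p ∣ 7 * ((X - 24) ^ 2 + 6336) := by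
          rcases hpI.dvd_or_dvd h1 with h1 | h1
          · have h2 : p ∣ 7 := by exact_mod_cast h1
            exact Dvd.dvd.mul_right h2 _
          · have h1 := hpI.dvd_of_dvd_pow h1
            rw [e2] at h1
            have h2 : p ∣ (X - 24) ^ 2 + 6336 := by exact_mod_cast h1
            exact Dvd.dvd.mul_left h2 _
        exact ((h0.mul_left _).mul_left _).mul_right _
    · intro p hp j hpj
      have h1 : p ∣ (d j).natAbs := Int.natCast_dvd.mp hpj
      exact (h1.trans (dvd_prod_of_mem (fun j => (d j).natAbs) (mem_univ j))).mul_left _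
  have hrad2 : rad (Fin.append f d) ≤ (7495 * 7 * 6337 * D) * (ρ * σ) * X ^ (5 - 1) := by
    refine hrad.trans ?_
    have h2 : X - 24 ≤ X := Nat.sub_le _ _
    have h3 : (X - 24) ^ 2 ≤ X ^ 2 := Nat.pow_le_pow_left h2 2
    have h4 : 1 ≤ X ^ 2 := Nat.one_le_pow _ _ (by omega)
    have h5 : 7 * (X - 24) ^ 2 + 7488 ≤ 7495 * X ^ 2 := by omega
    have h6 : (X - 24) ^ 2 + 6336 ≤ 6337 * X ^ 2 := by omega
    calc ρ * σ * ((7 * (X - 24) ^ 2 + 7488) * (7 * ((X - 24) ^ 2 + 6336))) * D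
        ≤ ρ * σ * ((7495 * X ^ 2) * (7 * (6337 * X ^ 2))) * D := by gcongr
      _ = _ := by ring
  have hx0 : Fin.append f d (0 : Fin (4 + (k + 2))) = (X : ℤ) ^ 7 := by
    have : (0 : Fin (4 + (k + 2))) = Fin.castAdd (k + 2) (0 : Fin 4) := by
      apply Fin.ext; simp
    rw [this, Fin.append_left]
    exact hf0
  have hC1 : 1 ≤ 7495 * 7 * 6337 * D := by omega
  have hlogbig : ((5 : ℕ) + 1 : ℝ) ^ A * (7495 * 7 * 6337 * D : ℕ) ≤ Real.log X :=
    le_log_of (by omega)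
  refine ⟨Fin.append f d, hadm, hns, ?_, ?_⟩
  · rw [hx0]
    push_cast [abs_of_nonneg (by positivity : (0 : ℝ) ≤ (X : ℝ) ^ 7)]
    have h1 : (1 : ℝ) ≤ ((5 : ℕ) + 1 : ℝ) ^ A * (7495 * 7 * 6337 * D : ℕ) := by
      have h2 : (1 : ℝ) ≤ ((5 : ℕ) + 1 : ℝ) ^ A := one_le_pow₀ (by norm_num)
      have h3 : (1 : ℝ) ≤ ((7495 * 7 * 6337 * D : ℕ) : ℝ) := by exact_mod_cast hC1
      nlinarith
    have := final (dg := 7) (s := 5) (by norm_num) (one_le_rad _) hC1 hrad2 hmain (by omega)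
      hlogbig (h1.trans hlogbig)
    push_cast at this
    exact this
  · rw [hx0, Int.natAbs_pow, Int.natAbs_natCast]
    exact lt_of_lt_of_le (by omega) (Nat.le_self_pow (by norm_num) X)

end Pool.Agent.W5h7.SNL
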