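import Pool.Agent.W5h7.SNL.Mat

set_option autoImplicit false

/-!
# Exponents solving a linear congruence between truncated logarithms
-/

namespace Pool.Agent.W5h7.SNL

open Finset

theorem digits {Z : ℤ} (hZ : 0 < Z) (τ : ℤ) (n : ℕ) : ∃ t : ℕ → ℤ,
    (∀ k, 0 ≤ t k ∧ t k < Z) ∧ Z ^ n ∣ τ - ∑ k ∈ range n, t k * Z ^ k := by
  induction n with
  | zero => exact ⟨fun _ => 0, fun _ => ⟨le_rfl, hZ⟩, by simp⟩
  | succ n ih =>
    obtain ⟨t, ht, w, hw⟩ := ih
    refine ⟨Function.update t n (w % Z), ?_, ?_⟩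
    · intro k
      by_cases hk : k = n
      · subst hk
        rw [Function.update_self]
        exact ⟨Int.emod_nonneg _ hZ.ne', Int.emod_lt_of_pos _ hZ⟩
      · rw [Function.update_of_ne hk]
        exact ht k
    · rw [sum_range_succ, Function.update_self]
      have h1 : ∑ k ∈ range n, Function.update t n (w % Z) k * Z ^ k =
          ∑ k ∈ range n, t k * Z ^ k := by
        refine sum_congr rfl fun k hk => ?_
        have : k ≠ n := by have := mem_range.1 hk; omega
        rw [Function.update_of_ne this]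
      rw [h1]
      refine ⟨w / Z, ?_⟩
      have h2 := Int.emod_add_mul_ediv w Z
      calc τ - (∑ k ∈ range n, t k * Z ^ k + w % Z * Z ^ n)
          = (τ - ∑ k ∈ range n, t k * Z ^ k) - w % Z * Z ^ n := by ring
        _ = Z ^ n * w - w % Z * Z ^ n := by rw [hw]
        _ = Z ^ n * (w % Z + Z * (w / Z)) - w % Z * Z ^ n := by rw [h2]
        _ = Z ^ (n + 1) * (w / Z) := by ring

theorem exists_exponents {m : ℕ} (hm : 1 ≤ m) {a : Fin m → ℤ} (ha0 : ∀ i, a i ≠ 0)
    (hinj : Function.Injective a) : ∃ (Δ : ℤ) (C : ℕ), Δ ≠ 0 ∧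
      ∀ Z : ℤ, 1 ≤ Z → IsCoprime Z Δ → ∀ τ : ℤ, Z ∣ τ → ∃ e : Fin m → ℕ,
        (∀ i, (e i : ℤ) ≤ C * Z ^ 2) ∧
        Z ^ (2 * m + 1) ∣ ∑ i, (e i : ℤ) * lg (2 * m) (1 + a i * Z) - τ := by
  obtain ⟨Δ, b, c, hΔ, hv⟩ := exists_vectors hm ha0 hinj
  set B : ℤ := ∑ j ∈ range (2 * m), ∑ i, (|b j i| + |c j i|) with hB
  have hB0 : 0 ≤ B := sum_nonneg fun j _ => sum_nonneg fun i _ => by positivity
  have hBle : ∀ j, j < 2 * m → ∀ i, |b j i| + |c j i| ≤ B := by
    intro j hj i
    have h1 : |b j i| + |c j i| ≤ ∑ i, (|b j i| + |c j i|) :=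
      single_le_sum (f := fun i => |b j i| + |c j i|) (fun i _ => by positivity) (mem_univ i)
    have h2 : ∑ i, (|b j i| + |c j i|) ≤ B :=
      single_le_sum (f := fun j => ∑ i, (|b j i| + |c j i|))
        (fun j _ => sum_nonneg fun i _ => by positivity) (mem_range.2 hj)
    exact h1.trans h2
  refine ⟨Δ, (2 * (2 * m * B)).toNat, hΔ, ?_⟩
  intro Z hZ hcop τ hτ
  have hZ0 : 0 < Z := by linarith
  set W : ℤ := 2 * m * B * Z ^ 2 with hW
  have hW0 : 0 ≤ W := by positivity
  set l : Fin m → ℤ := fun i => lg (2 * m) (1 + a i * Z) with hl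
  have hldvd : ∀ i, Z ∣ l i := fun i => dvd_lg _ ⟨a i, by ring⟩
  obtain ⟨τ1, hτ1⟩ : Z ∣ τ - W * ∑ i, l i :=
    dvd_sub hτ (Dvd.dvd.mul_left (dvd_sum fun i _ => hldvd i) _)
  obtain ⟨p, u, hpu⟩ := hcop.pow_left (m := 2 * m + 1)
  obtain ⟨t, ht, w, hw⟩ := digits hZ0 (u * τ1) (2 * m)
  set x : Fin m → ℤ := fun i => ∑ k ∈ range (2 * m), t k * (b k i + c k i * Z) with hx
  have hxW : ∀ i, |x i| ≤ W := by
    intro i
    calc |x i| ≤ ∑ k ∈ range (2 * m), |t k * (b k i + c k i * Z)| := abs_sum_le_sum_abs _ _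
      _ ≤ ∑ k ∈ range (2 * m), Z * (B * Z) := by
          refine sum_le_sum fun k hk => ?_
          rw [abs_mul]
          have h1 : |t k| ≤ Z := by rw [abs_of_nonneg (ht k).1]; exact (ht k).2.le
          have h2 : |b k i + c k i * Z| ≤ B * Z := by
            calc |b k i + c k i * Z| ≤ |b k i| + |c k i * Z| := abs_add_le _ _
              _ = |b k i| + |c k i| * Z := by rw [abs_mul, abs_of_pos hZ0]
              _ ≤ |b k i| * Z + |c k i| * Z := by
                  have : |b k i| * 1 ≤ |b k i| * Z := mul_le_mul_of_nonneg_left hZ (abs_nonneg _)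
                  linarith
              _ = (|b k i| + |c k i|) * Z := by ring
              _ ≤ B * Z := mul_le_mul_of_nonneg_right (hBle k (mem_range.1 hk) i) hZ0.le
          exact mul_le_mul h1 h2 (abs_nonneg _) hZ0.le
      _ = W := by
          rw [sum_const, card_range, nsmul_eq_mul, hW]
          push_cast
          ring
  refine ⟨fun i => (x i + W).toNat, ?_, ?_⟩
  · intro i
    have h1 := abs_le.1 (hxW i)
    have h2 : 0 ≤ 2 * (2 * (m : ℤ) * B) := by positivity
    rw [Int.toNat_of_nonneg (by linarith), Int.toNat_of_nonneg h2]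
    calc x i + W ≤ W + W := by linarith
      _ = _ := by rw [hW]; ring
  · have e0 : ∀ i, (((x i + W).toNat : ℕ) : ℤ) = x i + W := fun i => by
      have h1 := abs_le.1 (hxW i)
      exact Int.toNat_of_nonneg (by linarith)
    have e1 : ∑ i, (((x i + W).toNat : ℕ) : ℤ) * lg (2 * m) (1 + a i * Z) - τ =
        ∑ i, x i * l i - Z * τ1 := by
      rw [← hτ1, sum_congr rfl fun i _ => by rw [e0 i], mul_sum]
      have : ∑ i, (x i + W) * lg (2 * m) (1 + a i * Z) =
          ∑ i, x i * l i + ∑ i, W * l i := by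
        rw [← sum_add_distrib]
        exact sum_congr rfl fun i _ => by ring
      rw [this]; ring
    rw [e1]
    have e2 : ∑ i, x i * l i = ∑ k ∈ range (2 * m), t k *
        ∑ i, (b k i + c k i * Z) * lg (2 * m) (1 + a i * Z) := by
      simp only [hx, sum_mul, mul_sum]
      rw [sum_comm]
      refine sum_congr rfl fun k _ => sum_congr rfl fun i _ => ?_
      ring
    have h3 : Z ^ (2 * m + 1) ∣ ∑ i, x i * l i - Δ * ∑ k ∈ range (2 * m), t k * Z ^ (k + 1) := by
      rw [e2, mul_sum, ← sum_sub_distrib]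
      refine dvd_sum fun k hk => ?_
      have h4 := hv k (mem_range.1 hk) Z
      have e3 : t k * ∑ i, (b k i + c k i * Z) * lg (2 * m) (1 + a i * Z) -
          Δ * (t k * Z ^ (k + 1)) = t k * (∑ i, (b k i + c k i * Z) *
            lg (2 * m) (1 + a i * Z) - Δ * Z ^ (k + 1)) := by ring
      rw [e3]
      exact Dvd.dvd.mul_left h4 _
    have h5 : Z ^ (2 * m + 1) ∣ Δ * ∑ k ∈ range (2 * m), t k * Z ^ (k + 1) - Z * τ1 := by
      have e4 : ∑ k ∈ range (2 * m), t k * Z ^ (k + 1) =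
          Z * ∑ k ∈ range (2 * m), t k * Z ^ k := by
        rw [mul_sum]
        exact sum_congr rfl fun k _ => by ring
      have e5 : ∑ k ∈ range (2 * m), t k * Z ^ k = u * τ1 - Z ^ (2 * m) * w := by linarith
      rw [e4, e5]
      refine ⟨-(Δ * w) - p * Z * τ1, ?_⟩
      have e6 : u * Δ = 1 - p * Z ^ (2 * m + 1) := by linarith
      calc Δ * (Z * (u * τ1 - Z ^ (2 * m) * w)) - Z * τ1
          = (u * Δ) * Z * τ1 - Δ * Z ^ (2 * m + 1) * w - Z * τ1 := by ring
        _ = Z ^ (2 * m + 1) * (-(Δ * w) - p * Z * τ1) := by rw [e6]; ring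
    have e7 : ∑ i, x i * l i - Z * τ1 = (∑ i, x i * l i -
        Δ * ∑ k ∈ range (2 * m), t k * Z ^ (k + 1)) +
        (Δ * ∑ k ∈ range (2 * m), t k * Z ^ (k + 1) - Z * τ1) := by ring
    rw [e7]
    exact dvd_add h3 h5

end Pool.Agent.W5h7.SNL
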