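import Mathlib

set_option autoImplicit false

/-!
# A functional on polynomials supported on double points
-/

namespace Pool.Agent.W5h7.SNL

open Finset Polynomial

variable {m : ℕ}

/-- the functional `P ↦ ∑ β_i a_i P'(a_i) - c_i P(a_i)` -/
noncomputable def Phi (a β c : Fin m → ℤ) (P : ℤ[X]) : ℤ :=
  ∑ i, (β i * (a i * (derivative P).eval (a i)) - c i * P.eval (a i))

theorem Phi_sum (a β c : Fin m → ℤ) (n : ℕ) (k : ℕ → ℤ) :
    Phi a β c (∑ s ∈ range n, C (k s) * X ^ s) = ∑ s ∈ range n, k s * Phi a β c (X ^ s) := by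
  unfold Phi
  simp only [mul_sum]
  rw [sum_comm]
  refine sum_congr rfl fun i _ => ?_
  rw [derivative_sum, eval_finsetSum, eval_finsetSum, mul_sum, mul_sum, mul_sum,
    ← sum_sub_distrib]
  refine sum_congr rfl fun s _ => ?_
  rw [derivative_C_mul, eval_mul, eval_mul, eval_C]
  ring

theorem Phi_eq (a β c : Fin m → ℤ) {M : ℕ}
    (h : ∀ s, 1 ≤ s → s < M → Phi a β c (X ^ s) = 0) {P : ℤ[X]} (h0 : P.coeff 0 = 0)
    (hP : P.natDegree ≤ M) : Phi a β c P = P.coeff M * Phi a β c (X ^ M) := by
  have e := P.as_sum_range_C_mul_X_pow' (n := M + 1) (by omega)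
  have e1 : Phi a β c P = Phi a β c (∑ s ∈ range (M + 1), C (P.coeff s) * X ^ s) := by rw [← e]
  rw [e1, Phi_sum, sum_range_succ]
  have : ∑ s ∈ range M, P.coeff s * Phi a β c (X ^ s) = 0 := by
    refine sum_eq_zero fun s hs => ?_
    rcases Nat.eq_zero_or_pos s with h1 | h1
    · rw [h1, h0, zero_mul]
    · rw [h s h1 (mem_range.1 hs), mul_zero]
  rw [this, zero_add]

theorem double_root {P : ℤ[X]} {t : ℤ} (h : (X - C t) ^ 2 ∣ P) :
    P.eval t = 0 ∧ (derivative P).eval t = 0 := by
  obtain ⟨Q, rfl⟩ := h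
  constructor
  · simp
  · rw [derivative_mul, derivative_pow]
    simp

theorem vanish (hm : 1 ≤ m) {a β c : Fin m → ℤ} (ha0 : ∀ i, a i ≠ 0)
    (hinj : Function.Injective a)
    (h1 : ∀ s, 1 ≤ s → s < 2 * m → Phi a β c (X ^ s) = 0) (h2 : ∑ i, (β i + c i) = 0) :
    (∀ i, β i = 0) ∧ ∀ i, c i = 0 := by
  classical
  set κ := Phi a β c (X ^ (2 * m)) with hκ
  have hcard : ∀ i : Fin m, (univ.erase i).card = m - 1 := by
    intro i; rw [card_erase_of_mem (mem_univ i), card_univ, Fintype.card_fin]
  -- first family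
  have hA : ∀ i, β i * (a i * (a i * ∏ j ∈ univ.erase i, (a i - a j) ^ 2)) = κ := by
    intro i
    set U : ℤ[X] := X * ∏ j ∈ univ.erase i, (X - C (a j)) ^ 2 with hU
    set W : ℤ[X] := (X - C (a i)) * U with hW
    have hmon : (∏ j ∈ univ.erase i, (X - C (a j)) ^ 2 : ℤ[X]).Monic :=
      monic_prod_of_monic _ _ fun j _ => (monic_X_sub_C _).pow 2
    have hdeg0 : (∏ j ∈ univ.erase i, (X - C (a j)) ^ 2 : ℤ[X]).natDegree = 2 * (m - 1) := by
      rw [natDegree_prod_of_monic _ _ fun j _ => (monic_X_sub_C _).pow 2]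
      rw [sum_congr rfl fun j _ => (monic_X_sub_C (a j)).natDegree_pow 2]
      simp only [natDegree_X_sub_C, mul_one, sum_const, hcard, smul_eq_mul]
      ring
    have hUmon : U.Monic := monic_X.mul hmon
    have hWmon : W.Monic := (monic_X_sub_C _).mul hUmon
    have hUdeg : U.natDegree = 1 + 2 * (m - 1) := by
      rw [hU, monic_X.natDegree_mul hmon, natDegree_X, hdeg0]
    have hWdeg : W.natDegree = 2 * m := by
      rw [hW, (monic_X_sub_C _).natDegree_mul hUmon, natDegree_X_sub_C, hUdeg]; omega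
    have hW0 : W.coeff 0 = 0 := by
      rw [← X_dvd_iff, hW, hU]
      exact Dvd.dvd.mul_left (Dvd.intro _ rfl) _
    have e := Phi_eq a β c h1 hW0 hWdeg.le
    have hc : W.coeff (2 * m) = 1 := by rw [← hWdeg]; exact hWmon.coeff_natDegree
    rw [hc, one_mul] at e
    rw [hκ, ← e]
    unfold Phi
    rw [← add_sum_erase univ _ (mem_univ i)]
    have hz : ∑ j ∈ univ.erase i, (β j * (a j * (derivative W).eval (a j)) -
        c j * W.eval (a j)) = 0 := by
      refine sum_eq_zero fun j hj => ?_
      have hd : (X - C (a j)) ^ 2 ∣ W := by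
        rw [hW, hU]
        refine Dvd.dvd.mul_left (Dvd.dvd.mul_left ?_ _) _
        exact dvd_prod_of_mem (fun j => (X - C (a j)) ^ 2) hj
      obtain ⟨z1, z2⟩ := double_root hd
      rw [z1, z2]; ring
    rw [hz, add_zero]
    have e1 : W.eval (a i) = 0 := by rw [hW]; simp
    have e2 : (derivative W).eval (a i) = U.eval (a i) := by
      rw [hW, derivative_mul]; simp
    have e3 : U.eval (a i) = a i * ∏ j ∈ univ.erase i, (a i - a j) ^ 2 := by
      rw [hU, eval_mul, eval_X, eval_prod]
      simp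
    rw [e1, e2, e3]; ring
  -- second polynomial
  have hB : (∏ j, a j ^ 2) * ∑ i, c i = κ := by
    set V : ℤ[X] := ∏ j, (X - C (a j)) ^ 2 with hV
    set P : ℤ[X] := V - C (∏ j, a j ^ 2) with hP
    have hVmon : V.Monic := monic_prod_of_monic _ _ fun j _ => (monic_X_sub_C _).pow 2
    have hVdeg : V.natDegree = 2 * m := by
      rw [hV, natDegree_prod_of_monic _ _ fun j _ => (monic_X_sub_C _).pow 2]
      rw [sum_congr rfl fun j _ => (monic_X_sub_C (a j)).natDegree_pow 2]
      simp only [natDegree_X_sub_C, mul_one, sum_const, card_univ, Fintype.card_fin, smul_eq_mul]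
      ring
    have hP0 : P.coeff 0 = 0 := by
      rw [hP, coeff_sub, coeff_C_zero, coeff_zero_eq_eval_zero, hV, eval_prod]
      simp
    have hPdeg : P.natDegree ≤ 2 * m := by
      rw [hP, natDegree_sub_C, hVdeg]
    have hc : P.coeff (2 * m) = 1 := by
      rw [hP, coeff_sub, coeff_C_of_ne_zero (by omega), sub_zero, ← hVdeg]
      exact hVmon.coeff_natDegree
    have e := Phi_eq a β c h1 hP0 hPdeg
    rw [hc, one_mul] at e
    rw [hκ, ← e]
    unfold Phi
    rw [mul_sum]
    refine sum_congr rfl fun j _ => ?_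
    have hd : (X - C (a j)) ^ 2 ∣ V := dvd_prod_of_mem (fun j => (X - C (a j)) ^ 2) (mem_univ j)
    obtain ⟨z1, z2⟩ := double_root hd
    have e1 : P.eval (a j) = -∏ j, a j ^ 2 := by
      rw [hP, eval_sub, z1, eval_C]; ring
    have e2 : (derivative P).eval (a j) = 0 := by
      rw [hP, derivative_sub, derivative_C, sub_zero, z2]
    rw [e1, e2]; ring
  have hpos1 : ∀ i, 0 < a i * (a i * ∏ j ∈ univ.erase i, (a i - a j) ^ 2) := by
    intro i
    have : 0 < ∏ j ∈ univ.erase i, (a i - a j) ^ 2 := by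
      refine prod_pos fun j hj => ?_
      have hne : a i - a j ≠ 0 := by
        intro h
        exact (mem_erase.1 hj).1 (hinj (by omega : a j = a i))
      positivity
    have h3 := ha0 i
    have h4 : 0 < a i ^ 2 := by positivity
    calc (0 : ℤ) < a i ^ 2 * ∏ j ∈ univ.erase i, (a i - a j) ^ 2 := mul_pos h4 this
      _ = _ := by ring
  have hpos2 : 0 < ∏ j, a j ^ 2 := prod_pos fun j _ => by
    have := ha0 j
    positivity
  have hne : (univ : Finset (Fin m)).Nonempty := ⟨⟨0, by omega⟩, mem_univ _⟩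
  have hsum : ∑ i, β i + ∑ i, c i = 0 := by rw [← sum_add_distrib]; exact h2
  have hκ0 : κ = 0 := by
    rcases lt_trichotomy κ 0 with h | h | h
    · exfalso
      have hb : ∀ i ∈ univ, β i < 0 := by
        intro i _
        by_contra hcon
        rw [not_lt] at hcon
        have := mul_nonneg hcon (hpos1 i).le
        rw [hA i] at this
        linarith
      have hs := sum_neg hb hne
      have hs2 : ∑ i, c i < 0 := by
        by_contra hcon
        rw [not_lt] at hcon
        have := mul_nonneg hpos2.le hcon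
        rw [hB] at this
        linarith
      linarith
    · exact h
    · exfalso
      have hb : ∀ i ∈ univ, 0 < β i := by
        intro i _
        by_contra hcon
        rw [not_lt] at hcon
        have := mul_nonpos_of_nonpos_of_nonneg hcon (hpos1 i).le
        rw [hA i] at this
        linarith
      have hs := sum_pos hb hne
      have hs2 : 0 < ∑ i, c i := by
        by_contra hcon
        rw [not_lt] at hcon
        have := mul_nonpos_of_nonneg_of_nonpos hpos2.le hcon
        rw [hB] at this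
        linarith
      linarith
  have hβ : ∀ i, β i = 0 := by
    intro i
    have := hA i
    rw [hκ0] at this
    rcases mul_eq_zero.1 this with h | h
    · exact h
    · exact absurd h (hpos1 i).ne'
  refine ⟨hβ, fun i => ?_⟩
  set Q : ℤ[X] := X * ∏ j ∈ univ.erase i, (X - C (a j)) with hQ
  have hmon : (∏ j ∈ univ.erase i, (X - C (a j)) : ℤ[X]).Monic :=
    monic_prod_of_monic _ _ fun j _ => monic_X_sub_C _
  have hQdeg : Q.natDegree = m := by
    rw [hQ, monic_X.natDegree_mul hmon, natDegree_X,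
      natDegree_prod_of_monic _ _ fun j _ => monic_X_sub_C _]
    simp only [natDegree_X_sub_C, sum_const, hcard, smul_eq_mul, mul_one]
    omega
  have hQ0 : Q.coeff 0 = 0 := by
    rw [← X_dvd_iff, hQ]
    exact Dvd.intro _ rfl
  have e := Phi_eq a β c h1 hQ0 (by omega)
  have hc : Q.coeff (2 * m) = 0 := coeff_eq_zero_of_natDegree_lt (by omega)
  rw [hc, zero_mul] at e
  unfold Phi at e
  rw [← add_sum_erase univ _ (mem_univ i)] at e
  have hz : ∑ j ∈ univ.erase i, (β j * (a j * (derivative Q).eval (a j)) -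
      c j * Q.eval (a j)) = 0 := by
    refine sum_eq_zero fun j hj => ?_
    have hd : (X - C (a j)) ∣ Q := by
      rw [hQ]
      refine Dvd.dvd.mul_left ?_ _
      exact dvd_prod_of_mem (fun j => (X - C (a j))) hj
    have z1 : Q.eval (a j) = 0 := by
      obtain ⟨T, hT⟩ := hd
      rw [hT]; simp
    rw [z1, hβ j]; ring
  rw [hz, hβ i] at e
  have e3 : Q.eval (a i) = a i * ∏ j ∈ univ.erase i, (a i - a j) := by
    rw [hQ, eval_mul, eval_X, eval_prod]
    simp
  rw [e3] at e
  have hnz : a i * ∏ j ∈ univ.erase i, (a i - a j) ≠ 0 := by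
    refine mul_ne_zero (ha0 i) (prod_ne_zero_iff.2 fun j hj h => ?_)
    exact (mem_erase.1 hj).1 (hinj (by omega : a j = a i))
  have e4 : c i * (a i * ∏ j ∈ univ.erase i, (a i - a j)) = 0 := by linarith
  rcases mul_eq_zero.1 e4 with h | h
  · exact h
  · exact absurd h hnz

end Pool.Agent.W5h7.SNL
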