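import Mathlib

set_option autoImplicit false

/-!
# The truncated logarithm, multiplied by `M!`
-/

namespace Pool.Agent.W5h7.SNL

open Finset Polynomial

/-- the truncated logarithm, times `M!` -/
def lg {R : Type*} [CommRing R] (M : ℕ) (y : R) : R :=
  ∑ j ∈ range M, (-1) ^ j * ((M.factorial / (j + 1) : ℕ) : R) * (y - 1) ^ (j + 1)

theorem map_lg {R S : Type*} [CommRing R] [CommRing S] (f : R →+* S) (M : ℕ) (y : R) :
    f (lg M y) = lg M (f y) := by
  simp only [lg, map_sum, map_mul, map_pow, map_neg, map_one, map_natCast, map_sub]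

theorem div_mul_fact {M j : ℕ} (hj : j < M) : M.factorial / (j + 1) * (j + 1) = M.factorial :=
  Nat.div_mul_cancel (Nat.dvd_factorial (Nat.succ_pos j) hj)

theorem deriv_lg (M : ℕ) (P : ℤ[X]) :
    P * derivative (lg M P) = (M.factorial : ℤ[X]) * derivative P * (1 - (1 - P) ^ M) := by
  have h1 : derivative (lg M P) =
      (M.factorial : ℤ[X]) * derivative P * ∑ j ∈ range M, (1 - P) ^ j := by
    unfold lg
    rw [derivative_sum, mul_sum]
    refine sum_congr rfl fun j hj => ?_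
    rw [derivative_mul, derivative_mul, derivative_pow, derivative_pow, derivative_neg,
      derivative_one, derivative_natCast, derivative_sub, derivative_one]
    have h2 := div_mul_fact (mem_range.1 hj)
    have h3 : ((M.factorial : ℕ) : ℤ[X]) = ((M.factorial / (j + 1) : ℕ) : ℤ[X]) * ((j : ℤ[X]) + 1) := by
      have h5 := congrArg (Nat.cast : ℕ → ℤ[X]) h2
      push_cast at h5
      exact h5.symm
    have h4 : (1 - P) ^ j = (-1) ^ j * (P - 1) ^ j := by
      rw [← mul_pow]; congr 1; ring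
    rw [h3, h4]
    simp
    ring
  have h2 : (∑ j ∈ range M, (1 - P) ^ j) * P = 1 - (1 - P) ^ M := by
    have := geom_sum_mul (1 - P) M
    have e : (1 - P - 1 : ℤ[X]) = -P := by ring
    rw [e] at this
    linear_combination -this
  rw [h1, ← h2]; ring

/-- additivity of the truncated logarithm as a polynomial congruence -/
theorem lg_mul_poly (M : ℕ) {P Q : ℤ[X]} (hP : X ∣ P - 1) (hQ : X ∣ Q - 1) :
    X ^ (M + 1) ∣ lg M (P * Q) - lg M P - lg M Q := by
  have hPQ : X ∣ P * Q - 1 := by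
    have : P * Q - 1 = (P - 1) * Q + (Q - 1) := by ring
    rw [this]
    exact dvd_add (Dvd.dvd.mul_right hP _) hQ
  have key : ∀ {R : ℤ[X]}, X ∣ R - 1 → X ^ M ∣ (1 - R) ^ M := by
    intro R hR
    apply pow_dvd_pow_of_dvd
    rw [← neg_sub]
    exact (dvd_neg).2 hR
  set D : ℤ[X] := lg M (P * Q) - lg M P - lg M Q with hD
  have h1 : X ^ M ∣ (P * Q) * derivative D := by
    have e : (P * Q) * derivative D =
        (M.factorial : ℤ[X]) * (-(derivative (P * Q)) * (1 - P * Q) ^ M +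
          Q * derivative P * (1 - P) ^ M + P * derivative Q * (1 - Q) ^ M) := by
      have a1 := deriv_lg M (P * Q)
      have a2 := deriv_lg M P
      have a3 := deriv_lg M Q
      rw [hD, derivative_sub, derivative_sub]
      rw [derivative_mul] at a1 ⊢
      linear_combination a1 - Q * a2 - P * a3
    rw [e]
    refine Dvd.dvd.mul_left (dvd_add (dvd_add ?_ ?_) ?_) _
    · exact Dvd.dvd.mul_left (key hPQ) _
    · exact Dvd.dvd.mul_left (key hP) _
    · exact Dvd.dvd.mul_left (key hQ) _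
  have h2 : ¬ X ∣ P * Q := by
    intro h
    have h3 : (X : ℤ[X]) ∣ 1 := by
      have := dvd_sub h hPQ
      simpa using this
    exact prime_X.not_dvd_one h3
  have h3 : X ^ M ∣ derivative D := prime_X.pow_dvd_of_dvd_mul_left M h2 h1
  have h4 : D.coeff 0 = 0 := by
    have hl : ∀ {R : ℤ[X]}, X ∣ R - 1 → (lg M R).coeff 0 = 0 := by
      intro R hR
      rw [← X_dvd_iff]
      unfold lg
      refine dvd_sum fun j _ => ?_
      exact Dvd.dvd.mul_left (dvd_pow hR (Nat.succ_ne_zero j)) _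
    rw [hD, coeff_sub, coeff_sub, hl hPQ, hl hP, hl hQ]
    norm_num
  rw [X_pow_dvd_iff] at h3 ⊢
  intro d hd
  rcases d with _ | d
  · exact h4
  · have h5 := h3 d (by omega)
    rw [coeff_derivative] at h5
    rcases mul_eq_zero.1 h5 with h6 | h6
    · exact h6
    · exfalso
      have : (0 : ℤ) < (d : ℤ) + 1 := by positivity
      omega

/-- additivity of the truncated logarithm for integers `≡ 1` modulo `Z`, modulo `Z ^ (M + 1)` -/
theorem lg_mul (M : ℕ) {Z u v : ℤ} (hu : Z ∣ u - 1) (hv : Z ∣ v - 1) :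
    Z ^ (M + 1) ∣ lg M (u * v) - lg M u - lg M v := by
  obtain ⟨p, hp⟩ := hu
  obtain ⟨q, hq⟩ := hv
  have h := lg_mul_poly M (P := 1 + C p * X) (Q := 1 + C q * X) ⟨C p, by ring⟩ ⟨C q, by ring⟩
  obtain ⟨W, hW⟩ := h
  have h1 := congrArg (evalRingHom Z) hW
  rw [map_sub, map_sub, map_lg, map_lg, map_lg, map_mul, map_mul, map_pow] at h1
  have e1 : evalRingHom Z (1 + C p * X) = u := by
    simp
    linarith
  have e2 : evalRingHom Z (1 + C q * X) = v := by
    simp
    linarith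
  have e3 : evalRingHom Z (X : ℤ[X]) = Z := by simp
  rw [e1, e2, e3] at h1
  rw [h1]
  exact Dvd.intro _ rfl

theorem lg_one (M : ℕ) : lg M (1 : ℤ) = 0 := by
  unfold lg
  refine sum_eq_zero fun j _ => ?_
  simp

theorem dvd_lg (M : ℕ) {Z u : ℤ} (hu : Z ∣ u - 1) : Z ∣ lg M u := by
  unfold lg
  exact dvd_sum fun j _ => Dvd.dvd.mul_left (dvd_pow hu (Nat.succ_ne_zero j)) _

theorem dvd_pow_sub_one {Z u : ℤ} (hu : Z ∣ u - 1) (e : ℕ) : Z ∣ u ^ e - 1 := by
  have := sub_dvd_pow_sub_pow u 1 e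
  rw [one_pow] at this
  exact hu.trans this

theorem lg_pow (M : ℕ) {Z u : ℤ} (hu : Z ∣ u - 1) (e : ℕ) :
    Z ^ (M + 1) ∣ lg M (u ^ e) - e * lg M u := by
  induction e with
  | zero => simp [lg_one]
  | succ e ih =>
    have h1 := lg_mul M (dvd_pow_sub_one hu e) hu
    have e1 : lg M (u ^ (e + 1)) - ((e + 1 : ℕ) : ℤ) * lg M u =
        (lg M (u ^ e * u) - lg M (u ^ e) - lg M u) + (lg M (u ^ e) - e * lg M u) := by
      rw [pow_succ]; push_cast; ring
    rw [e1]
    exact dvd_add h1 ih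

theorem dvd_prod_sub_one {ι : Type*} (s : Finset ι) {Z : ℤ} (u : ι → ℤ)
    (hu : ∀ i ∈ s, Z ∣ u i - 1) : Z ∣ ∏ i ∈ s, u i - 1 := by
  classical
  induction s using Finset.induction_on with
  | empty => simp
  | insert i s his ih =>
    rw [prod_insert his]
    have h1 := hu i (mem_insert_self i s)
    have h2 := ih fun j hj => hu j (mem_insert_of_mem hj)
    have e : u i * ∏ j ∈ s, u j - 1 = (u i - 1) * ∏ j ∈ s, u j + (∏ j ∈ s, u j - 1) := by ring
    rw [e]
    exact dvd_add (Dvd.dvd.mul_right h1 _) h2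

theorem lg_prod {ι : Type*} (s : Finset ι) (M : ℕ) {Z : ℤ} (u : ι → ℤ) (e : ι → ℕ)
    (hu : ∀ i ∈ s, Z ∣ u i - 1) :
    Z ^ (M + 1) ∣ lg M (∏ i ∈ s, u i ^ e i) - ∑ i ∈ s, (e i : ℤ) * lg M (u i) := by
  classical
  induction s using Finset.induction_on with
  | empty => simp [lg_one]
  | insert i s his ih =>
    rw [prod_insert his, sum_insert his]
    have h1 := hu i (mem_insert_self i s)
    have h2 := ih fun j hj => hu j (mem_insert_of_mem hj)
    have h3 := lg_mul M (dvd_pow_sub_one h1 (e i)) (dvd_prod_sub_one s (fun j => u j ^ e j)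
      fun j hj => dvd_pow_sub_one (hu j (mem_insert_of_mem hj)) (e j))
    have h4 := lg_pow M h1 (e i)
    have e1 : lg M (u i ^ e i * ∏ j ∈ s, u j ^ e j) - (↑(e i) * lg M (u i) +
        ∑ j ∈ s, (e j : ℤ) * lg M (u j)) =
        (lg M (u i ^ e i * ∏ j ∈ s, u j ^ e j) - lg M (u i ^ e i) -
          lg M (∏ j ∈ s, u j ^ e j)) + (lg M (u i ^ e i) - e i * lg M (u i)) +
        (lg M (∏ j ∈ s, u j ^ e j) - ∑ j ∈ s, (e j : ℤ) * lg M (u j)) := by ring
    rw [e1]
    exact dvd_add (dvd_add h3 h4) h2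

/-- injectivity -/
theorem lg_inj (M : ℕ) (hM : 1 ≤ M) {Z u v : ℤ} (hZ : IsCoprime Z (M.factorial : ℤ))
    (hu : Z ∣ u - 1) (hv : Z ∣ v - 1) (h : Z ^ (M + 1) ∣ lg M u - lg M v) :
    Z ^ (M + 1) ∣ u - v := by
  set G : ℤ := ∑ j ∈ range M, (-1) ^ j * ((M.factorial / (j + 1) : ℕ) : ℤ) *
    ∑ i ∈ range (j + 1), (u - 1) ^ i * (v - 1) ^ (j + 1 - 1 - i) with hG
  have h1 : lg M u - lg M v = (u - v) * G := by
    unfold lg
    rw [← sum_sub_distrib, hG, mul_sum]
    refine sum_congr rfl fun j _ => ?_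
    have h2 := (Commute.all (u - 1) (v - 1)).mul_geom_sum₂ (j + 1)
    have e : u - 1 - (v - 1) = u - v := by ring
    rw [e] at h2
    linear_combination (-(-1) ^ j * ((M.factorial / (j + 1) : ℕ) : ℤ)) * h2
  have h3 : Z ∣ G - (M.factorial : ℤ) := by
    obtain ⟨M', rfl⟩ : ∃ M', M = M' + 1 := ⟨M - 1, by omega⟩
    rw [hG, sum_range_succ']
    have e : ((-1) ^ 0 * (((M' + 1).factorial / (0 + 1) : ℕ) : ℤ) *
        ∑ i ∈ range (0 + 1), (u - 1) ^ i * (v - 1) ^ (0 + 1 - 1 - i)) =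
        ((M' + 1).factorial : ℤ) := by simp
    rw [e, add_sub_cancel_right]
    refine dvd_sum fun j _ => Dvd.dvd.mul_left (dvd_sum fun i hi => ?_) _
    have hi' := mem_range.1 hi
    rcases Nat.eq_zero_or_pos i with h0 | h0
    · rw [h0]
      exact Dvd.dvd.mul_left (dvd_pow hv (by omega)) _
    · exact Dvd.dvd.mul_right (dvd_pow hu (by omega)) _
  have h4 : IsCoprime Z G := by
    obtain ⟨t, ht⟩ := h3
    have e : G = (M.factorial : ℤ) + Z * t := by linarith
    rw [e]
    exact hZ.add_mul_left_right t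
  rw [h1] at h
  exact (h4.pow_left (m := M + 1)).dvd_of_dvd_mul_right h

end Pool.Agent.W5h7.SNL
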