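import Pool.Agent.W5h7.SNL.EvenCase
import Pool.Agent.Y912.SN4.Tuple

set_option autoImplicit false

/-!
# The strong n-conjecture: every power of the logarithm
-/

namespace Pool.Agent.W5h7.SNL

open Finset
open Pool.Agent.TH285.SN (Adm rad rad_le_of one_le_rad infinite_of)
open Pool.Agent.Y912.SN4 (quad quad_pos adm_quad noSub_quad)

theorem quad_case (A N : ℕ) : ∃ x : Fin 4 → ℤ, Adm x ∧ NoSub x ∧
    ((rad x : ℝ) * Real.log (rad x) ^ A) ^ (((9 : ℕ) : ℝ) / (7 : ℕ)) ≤ |((x 0 : ℤ) : ℝ)| ∧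
    N < (x 0).natAbs := by
  obtain ⟨X, ρ, σ, hXB, ⟨z, hz⟩, hρ0, hσ0, hρ, hσ, hmain⟩ :=
    exists_small (L := 30) (by norm_num) (a := -4) (by norm_num) 7 (A + 1)
      (⌈Real.exp (((7 : ℕ) + 1 : ℝ) ^ A * (23 * 7 * 3 * 89 * 125 : ℕ))⌉₊ + 23 * 7 * 3 * 89 * 125 + N)
  have hX : (X : ℤ) = 7 + 30 * z := by push_cast at hz; linarith
  have hX0 : (0 : ℤ) < X := by
    have : 0 < X := by omega
    exact_mod_cast this
  have c2 : IsCoprime (X : ℤ) 2 :=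
    TH285.SN.cop_of (c := 7) (w := 15 * z) (by norm_num) (by rw [hX]; ring)
  have c3 : (3 : ℤ) ∣ X - 1 := ⟨2 + 10 * z, by rw [hX]; ring⟩
  have c5 : IsCoprime (X : ℤ) 5 :=
    TH285.SN.cop_of (c := 7) (w := 6 * z) (by norm_num) (by rw [hX]; ring)
  have c5' : IsCoprime ((X : ℤ) + 4) 5 :=
    TH285.SN.cop_of (c := 11) (w := 6 * z) (by norm_num) (by rw [hX]; ring)
  set C : ℕ := 23 * 7 * 3 * 89 * 125 with hC
  have hrad : rad (quad (X : ℤ)) ≤ ρ * σ * ((5 * X + 18) * (5 * X + 2)) *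
      (3 * ((17 * X ^ 2 + 68 * X + 4) * (21 * X ^ 2 + 84 * X + 20))) := by
    refine rad_le_of _ _ (by positivity) fun p hp i h => ?_
    have hpI : Prime (p : ℤ) := Nat.prime_iff_prime_int.mp hp
    have cast : ∀ a : ℕ, (p : ℤ) ∣ (a : ℤ) → p ∣ a := fun a h => by exact_mod_cast h
    fin_cases i
    · have h0 : (p : ℤ) ∣ (5 * (X : ℤ) + 18) ^ 5 * (X : ℤ) ^ 4 := h
      rcases hpI.dvd_or_dvd h0 with h1 | h1
      · have h2 := cast (5 * X + 18) (by push_cast; exact hpI.dvd_of_dvd_pow h1)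
        exact ((h2.mul_right _).mul_left _).mul_right _
      · have h2 := cast X (hpI.dvd_of_dvd_pow h1)
        exact ((hρ p hp h2).mul_right _).mul_right _ |>.mul_right _
    · have h0 : (p : ℤ) ∣ -((5 * (X : ℤ) + 2) ^ 5 * ((X : ℤ) + 4) ^ 4) := h
      rw [dvd_neg] at h0
      rcases hpI.dvd_or_dvd h0 with h1 | h1
      · have h2 := cast (5 * X + 2) (by push_cast; exact hpI.dvd_of_dvd_pow h1)
        exact ((h2.mul_left _).mul_left _).mul_right _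
      · have h2 := hpI.dvd_of_dvd_pow h1
        have h3 : p ∣ σ := hσ p hp (by rw [sub_neg_eq_add]; exact h2)
        exact ((h3.mul_left _).mul_right _).mul_right _
    · have h0 : (p : ℤ) ∣ 3 * (17 * (X : ℤ) ^ 2 + 68 * X + 4) ^ 3 := h
      rcases hpI.dvd_or_dvd h0 with h1 | h1
      · exact ((cast 3 (by exact_mod_cast h1)).mul_right _).mul_left _
      · have h2 := cast (17 * X ^ 2 + 68 * X + 4) (by push_cast; exact hpI.dvd_of_dvd_pow h1)
        exact ((h2.mul_right _).mul_left _).mul_left _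
    · have h0 : (p : ℤ) ∣ (21 * (X : ℤ) ^ 2 + 84 * X + 20) ^ 3 := h
      have h2 := cast (21 * X ^ 2 + 84 * X + 20) (by push_cast; exact hpI.dvd_of_dvd_pow h0)
      exact ((h2.mul_left _).mul_left _).mul_left _
  have hrad2 : rad (quad (X : ℤ)) ≤ C * (ρ * σ) * X ^ (7 - 1) := by
    refine hrad.trans ?_
    have h3 : 5 * X + 18 ≤ 23 * X := by omega
    have h4 : 5 * X + 2 ≤ 7 * X := by omega
    have hX1 : 1 ≤ X := by omega
    have h5 : 17 * X ^ 2 + 68 * X + 4 ≤ 89 * X ^ 2 := by nlinarith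
    have h6 : 21 * X ^ 2 + 84 * X + 20 ≤ 125 * X ^ 2 := by nlinarith
    calc ρ * σ * ((5 * X + 18) * (5 * X + 2)) *
          (3 * ((17 * X ^ 2 + 68 * X + 4) * (21 * X ^ 2 + 84 * X + 20)))
        ≤ ρ * σ * ((23 * X) * (7 * X)) * (3 * ((89 * X ^ 2) * (125 * X ^ 2))) := by gcongr
      _ = _ := by rw [hC]; ring
  have hC1 : 1 ≤ C := by rw [hC]; norm_num
  have hlogbig : ((7 : ℕ) + 1 : ℝ) ^ A * (C : ℕ) ≤ Real.log X := le_log_of (by omega)
  have hx0 : (X : ℤ) ^ 9 ≤ quad (X : ℤ) 0 := by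
    show (X : ℤ) ^ 9 ≤ (5 * (X : ℤ) + 18) ^ 5 * (X : ℤ) ^ 4
    have h1 : (X : ℤ) ^ 5 ≤ (5 * (X : ℤ) + 18) ^ 5 :=
      pow_le_pow_left₀ hX0.le (by linarith) 5
    have h2 : (0 : ℤ) ≤ (X : ℤ) ^ 4 := by positivity
    calc (X : ℤ) ^ 9 = (X : ℤ) ^ 5 * (X : ℤ) ^ 4 := by ring
      _ ≤ _ := mul_le_mul_of_nonneg_right h1 h2
  refine ⟨quad X, adm_quad hX0 c2 c3 c5 c5', noSub_quad hX0, ?_, ?_⟩
  · have h1 : (1 : ℝ) ≤ ((7 : ℕ) + 1 : ℝ) ^ A * (C : ℕ) := by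
      have h2 : (1 : ℝ) ≤ ((7 : ℕ) + 1 : ℝ) ^ A := one_le_pow₀ (by norm_num)
      have h3 : (1 : ℝ) ≤ ((C : ℕ) : ℝ) := by exact_mod_cast hC1
      nlinarith
    have h := final (dg := 9) (s := 7) (by norm_num) (one_le_rad _) hC1 hrad2 hmain (by omega)
      hlogbig (h1.trans hlogbig)
    have hx0' : ((X : ℝ)) ^ 9 ≤ ((quad (X : ℤ) 0 : ℤ) : ℝ) := by exact_mod_cast hx0
    exact h.trans (hx0'.trans (le_abs_self _))
  · have h2 : (X : ℤ) ≤ (X : ℤ) ^ 9 := le_self_pow₀ (by linarith) (by norm_num)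
    have h3 : (N : ℤ) < X := by
      have : N < X := by omega
      exact_mod_cast this
    omega

/-- the exponents -/
noncomputable def expo (n : ℕ) : ℝ := if n = 4 then 9 / 7 else if Odd n then 5 / 3 else 7 / 5

theorem main (n : ℕ) (hn : 4 ≤ n) (A : ℕ) :
    {x : Fin n → ℤ | (Adm x ∧ NoSub x) ∧
      ∃ j, ((rad x : ℝ) * Real.log (rad x) ^ A) ^ expo n ≤ |((x j : ℤ) : ℝ)|}.Infinite := by
  refine infinite_of _ ⟨0, by omega⟩ fun N => ?_
  rcases Nat.eq_or_lt_of_le hn with h4 | h4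
  · subst h4
    obtain ⟨x, h1, h2, h3, h5⟩ := quad_case A N
    refine ⟨x, ⟨⟨h1, h2⟩, 0, ?_⟩, h5⟩
    have : expo 4 = ((9 : ℕ) : ℝ) / (7 : ℕ) := by unfold expo; rw [if_pos rfl]; norm_num
    rw [this]
    exact h3
  · rcases Nat.even_or_odd n with he | ho
    · obtain ⟨k, rfl⟩ : ∃ k, n = 4 + (k + 2) := by
        obtain ⟨t, ht⟩ := he
        exact ⟨n - 6, by omega⟩
      have hk : Even k := by
        obtain ⟨t, ht⟩ := he
        exact ⟨t - 3, by omega⟩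
      obtain ⟨x, h1, h2, h3, h5⟩ := even_case hk A N
      refine ⟨x, ⟨⟨h1, h2⟩, 0, ?_⟩, h5⟩
      have : expo (4 + (k + 2)) = ((7 : ℕ) : ℝ) / (5 : ℕ) := by
        unfold expo
        rw [if_neg (by omega), if_neg (Nat.not_odd_iff_even.2 he)]; norm_num
      rw [this]
      exact h3
    · obtain ⟨k, rfl⟩ : ∃ k, n = 3 + (k + 2) := ⟨n - 5, by omega⟩
      have hk : Even k := by
        obtain ⟨t, ht⟩ := ho
        exact ⟨t - 2, by omega⟩
      obtain ⟨x, h1, h2, h3, h5⟩ := odd_case hk A N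
      refine ⟨x, ⟨⟨h1, h2⟩, 0, ?_⟩, h5⟩
      have : expo (3 + (k + 2)) = ((5 : ℕ) : ℝ) / (3 : ℕ) := by
        unfold expo
        rw [if_neg (by omega), if_pos ho]; norm_num
      rw [this]
      exact h3

end Pool.Agent.W5h7.SNL
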