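import Pool.Agent.W5h7.SNL.Log
import Pool.Agent.W5h7.SNL.Interp

set_option autoImplicit false

/-!
# The vectors of exponents
-/

namespace Pool.Agent.W5h7.SNL

open Finset

/-- the coefficient of `Z ^ (j + 1)` in `lg M (1 + a Z)` -/
def tcoef (M : ℕ) (a : ℤ) (j : ℕ) : ℤ := (-1) ^ j * ((M.factorial / (j + 1) : ℕ) : ℤ) * a ^ (j + 1)

theorem lg_eq (M : ℕ) (a Z : ℤ) :
    lg M (1 + a * Z) = ∑ j ∈ range M, tcoef M a j * Z ^ (j + 1) := by
  unfold lg tcoef
  refine sum_congr rfl fun j _ => ?_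
  rw [add_sub_cancel_left, mul_pow]; ring

/-- the coefficient of `Z ^ (j + 1)` in `Z * lg M (1 + a Z)` -/
def scoef (M : ℕ) (a : ℤ) (j : ℕ) : ℤ := if j = 0 then 0 else tcoef M a (j - 1)

theorem Z_lg_eq {M : ℕ} (hM : 1 ≤ M) (a Z : ℤ) :
    Z * lg M (1 + a * Z) = ∑ j ∈ range M, scoef M a j * Z ^ (j + 1) +
      tcoef M a (M - 1) * Z ^ (M + 1) := by
  obtain ⟨M', rfl⟩ : ∃ M', M = M' + 1 := ⟨M - 1, by omega⟩
  rw [lg_eq, sum_range_succ, sum_range_succ', mul_add, mul_sum]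
  have h0 : scoef (M' + 1) a 0 = 0 := by simp [scoef]
  rw [h0, zero_mul, add_zero]
  congr 1
  · refine sum_congr rfl fun j _ => ?_
    have : scoef (M' + 1) a (j + 1) = tcoef (M' + 1) a j := by simp [scoef]
    rw [this]; ring
  · simp only [Nat.add_sub_cancel]; ring

/-- the row of an index -/
def row {m : ℕ} (r : Fin m ⊕ Fin m) : ℕ := (finSumFinEquiv r : Fin (m + m)).val

theorem sum_row {m : ℕ} (g : ℕ → ℤ) : ∑ r : Fin m ⊕ Fin m, g (row r) = ∑ j ∈ range (2 * m), g j := by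
  have h1 : ∑ r : Fin m ⊕ Fin m, g (row r) = ∑ t : Fin (m + m), g t.val :=
    Fintype.sum_equiv finSumFinEquiv _ _ fun r => rfl
  rw [h1, Fin.sum_univ_eq_sum_range (fun j => g j) (m + m)]
  congr 2; ring

theorem row_inj {m : ℕ} {r s : Fin m ⊕ Fin m} (h : row r = row s) : r = s :=
  finSumFinEquiv.injective (Fin.ext h)

theorem exists_row {m : ℕ} {j : ℕ} (hj : j < 2 * m) : ∃ r : Fin m ⊕ Fin m, row r = j := by
  refine ⟨finSumFinEquiv.symm ⟨j, by omega⟩, ?_⟩
  unfold row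
  rw [Equiv.apply_symm_apply]

/-- the matrix -/
def mat {m : ℕ} (a : Fin m → ℤ) : Matrix (Fin m ⊕ Fin m) (Fin m ⊕ Fin m) ℤ :=
  fun r k => Sum.elim (fun i => tcoef (2 * m) (a i) (row r)) (fun i => scoef (2 * m) (a i) (row r)) k

theorem mat_inj {m : ℕ} (hm : 1 ≤ m) {a : Fin m → ℤ} (ha0 : ∀ i, a i ≠ 0)
    (hinj : Function.Injective a) (v : Fin m ⊕ Fin m → ℤ) (hv : (mat a).mulVec v = 0) : v = 0 := by
  have h : ∀ j, j < 2 * m → ∑ i, (tcoef (2 * m) (a i) j * v (Sum.inl i) +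
      scoef (2 * m) (a i) j * v (Sum.inr i)) = 0 := by
    intro j hj
    obtain ⟨r, hr⟩ := exists_row hj
    have h1 := congrFun hv r
    simp only [Matrix.mulVec, dotProduct, Fintype.sum_sum_type, mat, Sum.elim_inl, Sum.elim_inr,
      Pi.zero_apply, hr] at h1
    rw [sum_add_distrib]
    exact h1
  set M := 2 * m with hM
  have hF : (0 : ℤ) < (M.factorial : ℤ) := by exact_mod_cast M.factorial_pos
  set b : Fin m → ℤ := fun i => v (Sum.inl i) with hb
  set c : Fin m → ℤ := fun i => v (Sum.inr i) with hc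
  set β : Fin m → ℤ := fun i => a i * b i - c i with hβ
  have h0 : ∑ i, (β i + c i) = 0 := by
    have h1 := h 0 (by omega)
    have e : ∑ i, (tcoef M (a i) 0 * v (Sum.inl i) + scoef M (a i) 0 * v (Sum.inr i)) =
        (M.factorial : ℤ) * ∑ i, (β i + c i) := by
      rw [mul_sum]
      refine sum_congr rfl fun i _ => ?_
      simp only [tcoef, scoef, hβ, hb, hc]
      simp
      ring
    rw [e] at h1
    rcases mul_eq_zero.1 h1 with h2 | h2
    · exact absurd h2 hF.ne'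
    · exact h2
  have hs : ∀ s, 1 ≤ s → s < M → Phi a β c (Polynomial.X ^ s) = 0 := by
    intro s hs1 hs2
    have h1 := h s hs2
    have e1 : (((M.factorial / (s + 1) : ℕ) : ℤ)) * (s + 1) = (M.factorial : ℤ) := by
      exact_mod_cast div_mul_fact hs2
    have e2 : (((M.factorial / s : ℕ) : ℤ)) * s = (M.factorial : ℤ) := by
      obtain ⟨s', rfl⟩ : ∃ s', s = s' + 1 := ⟨s - 1, by omega⟩
      exact_mod_cast div_mul_fact (by omega : s' < M)
    have e : (-1) ^ s * (s * (s + 1) : ℤ) * ∑ i, (tcoef M (a i) s * v (Sum.inl i) +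
        scoef M (a i) s * v (Sum.inr i)) =
        (M.factorial : ℤ) * Phi a β c (Polynomial.X ^ s) := by
      unfold Phi
      rw [mul_sum, mul_sum]
      refine sum_congr rfl fun i _ => ?_
      have hs0 : s ≠ 0 := by omega
      obtain ⟨s', rfl⟩ : ∃ s', s = s' + 1 := ⟨s - 1, by omega⟩
      simp only [tcoef, scoef, hs0, if_false, Nat.add_sub_cancel, Polynomial.derivative_X_pow,
        Polynomial.eval_mul, Polynomial.eval_pow, Polynomial.eval_X, Polynomial.eval_C, hβ]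
      have hsq : ((-1 : ℤ) ^ s') * (-1) ^ s' = 1 := by
        rw [← mul_pow]; simp
      have hb' : v (Sum.inl i) = b i := rfl
      have hc' : v (Sum.inr i) = c i := rfl
      rw [hb', hc', pow_succ (-1 : ℤ) s']
      generalize ((M.factorial / (s' + 1 + 1) : ℕ) : ℤ) = F1 at e1 ⊢
      generalize ((M.factorial / (s' + 1) : ℕ) : ℤ) = F2 at e2 ⊢
      generalize (M.factorial : ℤ) = F at e1 e2 ⊢
      push_cast at e1 e2 ⊢
      generalize ((-1 : ℤ) ^ s') = w at hsq ⊢
      have e3 : w * -1 * (((s' : ℤ) + 1) * ((s' : ℤ) + 1 + 1)) *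
          (w * -1 * F1 * a i ^ (s' + 1 + 1) * b i + w * F2 * a i ^ (s' + 1) * c i) =
          (w * w) * ((s' + 1) * (F1 * (s' + 1 + 1)) * a i ^ (s' + 1 + 1) * b i -
            (s' + 1 + 1) * (F2 * (s' + 1)) * a i ^ (s' + 1) * c i) := by ring
      rw [e3, hsq, e1, e2]
      ring
    rw [h1, mul_zero] at e
    rcases mul_eq_zero.1 e.symm with h2 | h2
    · exact absurd h2 hF.ne'
    · exact h2
  obtain ⟨hβ0, hc0⟩ := vanish hm ha0 hinj hs h0
  funext k
  rcases k with i | i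
  · have h1 := hβ0 i
    simp only [hβ] at h1
    rw [hc0 i, sub_zero] at h1
    rcases mul_eq_zero.1 h1 with h2 | h2
    · exact absurd h2 (ha0 i)
    · exact h2
  · exact hc0 i

theorem det_ne {m : ℕ} (hm : 1 ≤ m) {a : Fin m → ℤ} (ha0 : ∀ i, a i ≠ 0)
    (hinj : Function.Injective a) : (mat a).det ≠ 0 := by
  intro h
  obtain ⟨v, hv, hv2⟩ := Matrix.exists_mulVec_eq_zero_iff.2 h
  exact hv (mat_inj hm ha0 hinj v hv2)

theorem exists_vectors {m : ℕ} (hm : 1 ≤ m) {a : Fin m → ℤ} (ha0 : ∀ i, a i ≠ 0)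
    (hinj : Function.Injective a) : ∃ (Δ : ℤ) (b c : ℕ → Fin m → ℤ), Δ ≠ 0 ∧
      ∀ j, j < 2 * m → ∀ Z : ℤ, Z ^ (2 * m + 1) ∣
        ∑ i, (b j i + c j i * Z) * lg (2 * m) (1 + a i * Z) - Δ * Z ^ (j + 1) := by
  classical
  set A := mat a with hA
  have hvec : ∀ j : ℕ, ∃ w : Fin m ⊕ Fin m → ℤ, j < 2 * m → ∀ r : Fin m ⊕ Fin m,
      (A.mulVec w) r = if row r = j then A.det else 0 := by
    intro j
    by_cases hj : j < 2 * m
    · obtain ⟨r0, hr0⟩ := exists_row hj
      refine ⟨fun k => A.adjugate k r0, fun _ r => ?_⟩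
      have h1 := congrFun (congrFun (Matrix.mul_adjugate A) r) r0
      rw [Matrix.mul_apply] at h1
      simp only [Matrix.mulVec, dotProduct]
      rw [h1]
      simp only [Matrix.smul_apply, Matrix.one_apply, smul_eq_mul]
      by_cases hr : row r = j
      · have : r = r0 := row_inj (hr.trans hr0.symm)
        rw [if_pos this, if_pos hr, mul_one]
      · have : r ≠ r0 := fun h => hr (by rw [h, hr0])
        rw [if_neg this, if_neg hr, mul_zero]
    · exact ⟨0, fun h => absurd h hj⟩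
  choose w hw using hvec
  refine ⟨A.det, fun j i => w j (Sum.inl i), fun j i => w j (Sum.inr i), det_ne hm ha0 hinj, ?_⟩
  intro j hj Z
  have e : ∑ i, (w j (Sum.inl i) + w j (Sum.inr i) * Z) * lg (2 * m) (1 + a i * Z) =
      ∑ t ∈ range (2 * m), (∑ i, (tcoef (2 * m) (a i) t * w j (Sum.inl i) +
        scoef (2 * m) (a i) t * w j (Sum.inr i))) * Z ^ (t + 1) +
        (∑ i, w j (Sum.inr i) * tcoef (2 * m) (a i) (2 * m - 1)) * Z ^ (2 * m + 1) := by
    have e1 : ∀ i, (w j (Sum.inl i) + w j (Sum.inr i) * Z) * lg (2 * m) (1 + a i * Z) =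
        ∑ t ∈ range (2 * m), (tcoef (2 * m) (a i) t * w j (Sum.inl i) +
        scoef (2 * m) (a i) t * w j (Sum.inr i)) * Z ^ (t + 1) +
        w j (Sum.inr i) * tcoef (2 * m) (a i) (2 * m - 1) * Z ^ (2 * m + 1) := by
      intro i
      rw [add_mul, mul_assoc (w j (Sum.inr i)), Z_lg_eq (by omega), lg_eq, mul_add, mul_sum,
        mul_sum, ← add_assoc, ← sum_add_distrib]
      congr 1
      · refine sum_congr rfl fun t _ => ?_
        ring
      · ring
    rw [sum_congr rfl fun i _ => e1 i, sum_add_distrib, sum_comm, sum_mul]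
    congr 1
    refine sum_congr rfl fun t _ => ?_
    rw [sum_mul]
  have e2 : ∀ r : Fin m ⊕ Fin m, (∑ i, (tcoef (2 * m) (a i) (row r) * w j (Sum.inl i) +
        scoef (2 * m) (a i) (row r) * w j (Sum.inr i))) = if row r = j then A.det else 0 := by
    intro r
    have h1 := hw j hj r
    simp only [Matrix.mulVec, dotProduct, Fintype.sum_sum_type, hA, mat, Sum.elim_inl,
      Sum.elim_inr] at h1
    rw [sum_add_distrib]
    exact h1
  have e3 : ∑ t ∈ range (2 * m), (∑ i, (tcoef (2 * m) (a i) t * w j (Sum.inl i) +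
        scoef (2 * m) (a i) t * w j (Sum.inr i))) * Z ^ (t + 1) = A.det * Z ^ (j + 1) := by
    rw [← sum_row (m := m) (fun t => (∑ i, (tcoef (2 * m) (a i) t * w j (Sum.inl i) +
        scoef (2 * m) (a i) t * w j (Sum.inr i))) * Z ^ (t + 1))]
    obtain ⟨r0, hr0⟩ := exists_row hj
    rw [sum_eq_single r0]
    · rw [e2, if_pos hr0, hr0]
    · intro r _ hr
      rw [e2, if_neg, zero_mul]
      intro h
      exact hr (row_inj (h.trans hr0.symm))
    · intro h
      exact absurd (mem_univ _) h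
  rw [e, e3]
  refine ⟨∑ i, w j (Sum.inr i) * tcoef (2 * m) (a i) (2 * m - 1), by ring⟩

end Pool.Agent.W5h7.SNL
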