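import Pool.Agent.W5h7.SNL.Small
import Pool.Agent.W5h7.SNL.Assemble

set_option autoImplicit false

/-!
# Odd `n`
-/

namespace Pool.Agent.W5h7.SNL

open Finset
open Pool.Agent.TH285.SN (Adm rad rad_le_of one_le_rad)

theorem le_log_of {t : ℝ} {X : ℕ} (h : ⌈Real.exp t⌉₊ ≤ X) : t ≤ Real.log X := by
  have h1 : Real.exp t ≤ X := (Nat.le_ceil _).trans (by exact_mod_cast h)
  have h2 := Real.log_le_log (Real.exp_pos t) h1
  rwa [Real.log_exp] at h2

theorem subsets3 : ∀ S : Finset (Fin 3), S ≠ ∅ → S ≠ univ → ∃ i, S = {i} ∨ S = {i}ᶜ := by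
  decide

theorem odd_case {k : ℕ} (hk : Even k) (A N : ℕ) : ∃ x : Fin (3 + (k + 2)) → ℤ, Adm x ∧ NoSub x ∧
    ((rad x : ℝ) * Real.log (rad x) ^ A) ^ (((5 : ℕ) : ℝ) / (3 : ℕ)) ≤ |((x 0 : ℤ) : ℝ)| ∧
    N < (x 0).natAbs := by
  obtain ⟨d, hdQ, hdd, hdsum, hdbig⟩ := exists_consts k 8 30 |8| (by norm_num) (by norm_num)
    (by decide) (by
      obtain ⟨t, ht⟩ := hk
      refine ⟨4 - t, ?_⟩
      rw [ht]; push_cast; ring) (by norm_num)
  have hdz := no_zero_subsum (by norm_num) hdsum hdbig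
  have hd0 : ∀ j, d j ≠ 0 := fun j => by
    have := hdz {j} (singleton_nonempty j)
    simpa using this
  set D : ℕ := ∏ j, (d j).natAbs with hD
  have hD0 : 0 < D := prod_pos fun j _ => Int.natAbs_pos.2 (hd0 j)
  set E : ℕ := ∑ j, (d j).natAbs with hE
  have hEabs : (E : ℤ) = ∑ j, |d j| := by
    rw [hE]; push_cast; rfl
  obtain ⟨X, ρ, σ, hXB, hXL, hρ0, hσ0, hρ, hσ, hmain⟩ :=
    exists_small (L := 30 * D) (by omega) (a := 2) (by norm_num) 1 (A + 1)
      (⌈Real.exp (((3 : ℕ) + 1 : ℝ) ^ A * (10 * D : ℕ))⌉₊ + 10 * D + E + N + 100)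
  obtain ⟨z', hz'⟩ := hXL
  have hz : (X : ℤ) = 1 + 30 * (D * z') := by
    push_cast at hz'
    linarith
  have h2X : (2 : ℤ) < X := by
    have : 2 < X := by omega
    exact_mod_cast this
  set f : Fin 3 → ℤ := fun i => TH285.SN.ent (X : ℤ) i with hf
  have hf0 : f 0 = (X : ℤ) ^ 5 := rfl
  have hf1 : f 1 = -((X : ℤ) - 2) ^ 5 := rfl
  have hf2 : f 2 = -(10 * (((X : ℤ) - 1) ^ 2 + 1) ^ 2) := rfl
  have hfsum : ∑ i, f i = -8 := by
    rw [Fin.sum_univ_three, hf0, hf1, hf2]; ring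
  have hff : ∀ i j, i ≠ j → IsCoprime (f i) (f j) := by
    intro i j hij
    have hne : (i : ℕ) ≠ (j : ℕ) := fun h => hij (Fin.ext h)
    rcases lt_or_gt_of_ne hne with h | h
    · exact TH285.SN.ent_cop hz _ _ h
    · exact (TH285.SN.ent_cop hz _ _ h).symm
  have hfd : ∀ i j, IsCoprime (f i) (d j) := by
    intro i j
    obtain ⟨w, hw⟩ : d j ∣ (D : ℤ) := by
      have h1 : (d j).natAbs ∣ D := dvd_prod_of_mem (fun j => (d j).natAbs) (mem_univ j)
      exact Int.natAbs_dvd.1 (by exact_mod_cast h1)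
    have hX : (X : ℤ) = 1 + d j * (30 * w * z') := by rw [hz, hw]; ring
    have c1 : IsCoprime (X : ℤ) (d j) := TH285.SN.cop_of isCoprime_one_left hX
    have c2 : IsCoprime ((X : ℤ) - 2) (d j) :=
      TH285.SN.cop_of (c := -1) (w := 30 * w * z') (isCoprime_one_left.neg_left)
        (by rw [hX]; ring)
    have c3 : IsCoprime (((X : ℤ) - 1) ^ 2 + 1) (d j) :=
      TH285.SN.cop_of (c := 1) (w := d j * (30 * w * z') ^ 2) isCoprime_one_left
        (by rw [hX]; ring)
    have c4 : IsCoprime (10 : ℤ) (d j) :=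
      ((hdQ j).of_isCoprime_of_dvd_right (by norm_num)).symm
    fin_cases i
    · exact c1.pow_left
    · exact (c2.pow_left).neg_left
    · exact (c4.mul_left c3.pow_left).neg_left
  have hlarge : ∀ i, (E : ℤ) + 8 < |f i| := by
    have hXE : (E : ℤ) + 100 < X := by
      have : E + 100 < X := by omega
      exact_mod_cast this
    intro i
    fin_cases i
    · show (E : ℤ) + 8 < |f 0|
      rw [hf0, abs_of_nonneg (by positivity)]
      have := le_self_pow₀ (by linarith : (1 : ℤ) ≤ X) (by norm_num : (5 : ℕ) ≠ 0)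
      linarith
    · show (E : ℤ) + 8 < |f 1|
      rw [hf1, abs_neg, abs_of_nonneg (pow_nonneg (by linarith) 5)]
      have := le_self_pow₀ (by linarith : (1 : ℤ) ≤ (X : ℤ) - 2) (by norm_num : (5 : ℕ) ≠ 0)
      linarith
    · show (E : ℤ) + 8 < |f 2|
      rw [hf2, abs_neg, abs_of_nonneg (by positivity)]
      have h1 := le_self_pow₀ (by linarith : (1 : ℤ) ≤ (X : ℤ) - 1) (by norm_num : (2 : ℕ) ≠ 0)
      have h2 := le_self_pow₀ (by linarith : (1 : ℤ) ≤ ((X : ℤ) - 1) ^ 2 + 1)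
        (by norm_num : (2 : ℕ) ≠ 0)
      linarith
  have hsum : ∑ i, f i + ∑ j, d j = 0 := by rw [hfsum, hdsum]; norm_num
  have hadm : Adm (Fin.append f d) :=
    adm_append (fun i => TH285.SN.ent_ne h2X i) hd0 hff hdd hfd hsum
  have hns : NoSub (Fin.append f d) := by
    refine noSub_append hsum hdz fun S hS hSu => ?_
    rw [← hEabs]
    obtain ⟨i, h | h⟩ := subsets3 S (nonempty_iff_ne_empty.1 hS) hSu
    · rw [h, sum_singleton]
      have := hlarge i
      linarith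
    · have h1 := sum_add_sum_compl {i} f
      rw [sum_singleton, hfsum, ← h] at h1
      have h2 : ∑ i ∈ S, f i = -(f i + 8) := by linarith
      rw [h2, abs_neg]
      have h3 := hlarge i
      have h4 : |f i| ≤ |f i + 8| + |(8 : ℤ)| := by
        have := abs_sub (f i + 8) 8
        rwa [add_sub_cancel_right] at this
      have h5 : |(8 : ℤ)| = 8 := by norm_num
      rw [h5] at h4
      linarith
  have hrad : rad (Fin.append f d) ≤ ρ * σ * (10 * ((X - 1) ^ 2 + 1)) * D := by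
    have e2 : ((X : ℤ) - 1) = ((X - 1 : ℕ) : ℤ) := by omega
    refine rad_append_le f d (by positivity) ?_ ?_
    · intro p hp i hpi
      have hpI : Prime (p : ℤ) := Nat.prime_iff_prime_int.mp hp
      fin_cases i
      · have h1 : (p : ℤ) ∣ (X : ℤ) ^ 5 := hpi
        have h2 : p ∣ X := by exact_mod_cast hpI.dvd_of_dvd_pow h1
        exact ((hρ p hp h2).mul_right _).mul_right _ |>.mul_right _
      · have h1 : (p : ℤ) ∣ -((X : ℤ) - 2) ^ 5 := hpi
        have h2 := hpI.dvd_of_dvd_pow ((dvd_neg).1 h1)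
        exact ((hσ p hp h2).mul_left _).mul_right _ |>.mul_right _
      · have h1 : (p : ℤ) ∣ -(10 * (((X : ℤ) - 1) ^ 2 + 1) ^ 2) := hpi
        rw [dvd_neg] at h1
        have h0 : p ∣ 10 * ((X - 1) ^ 2 + 1) := by
          rcases hpI.dvd_or_dvd h1 with h1 | h1
          · have h2 : p ∣ 10 := by exact_mod_cast h1
            exact Dvd.dvd.mul_right h2 _
          · have h1 := hpI.dvd_of_dvd_pow h1
            rw [e2] at h1
            have h2 : p ∣ (X - 1) ^ 2 + 1 := by exact_mod_cast h1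
            exact Dvd.dvd.mul_left h2 _
        exact (h0.mul_left _).mul_right _
    · intro p hp j hpj
      have h1 : p ∣ (d j).natAbs := Int.natCast_dvd.mp hpj
      exact (h1.trans (dvd_prod_of_mem (fun j => (d j).natAbs) (mem_univ j))).mul_left _
  have hrad2 : rad (Fin.append f d) ≤ (10 * D) * (ρ * σ) * X ^ (3 - 1) := by
    refine hrad.trans ?_
    have h3 : (X - 1) ^ 2 + 1 ≤ X ^ 2 := by
      obtain ⟨Y, hY⟩ : ∃ Y, X = Y + 2 := ⟨X - 2, by omega⟩
      rw [hY]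
      simp only [Nat.add_succ_sub_one]
      nlinarith
    calc ρ * σ * (10 * ((X - 1) ^ 2 + 1)) * D ≤ ρ * σ * (10 * X ^ 2) * D := by gcongr
      _ = _ := by ring
  have hx0 : Fin.append f d (0 : Fin (3 + (k + 2))) = (X : ℤ) ^ 5 := by
    have : (0 : Fin (3 + (k + 2))) = Fin.castAdd (k + 2) (0 : Fin 3) := by
      apply Fin.ext; simp
    rw [this, Fin.append_left]
    exact hf0
  have hC1 : 1 ≤ 10 * D := by omega
  have hlogbig : ((3 : ℕ) + 1 : ℝ) ^ A * (10 * D : ℕ) ≤ Real.log X := le_log_of (by omega)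
  refine ⟨Fin.append f d, hadm, hns, ?_, ?_⟩
  · rw [hx0]
    push_cast [abs_of_nonneg (by positivity : (0 : ℝ) ≤ (X : ℝ) ^ 5)]
    have h1 : (1 : ℝ) ≤ ((3 : ℕ) + 1 : ℝ) ^ A * (10 * D : ℕ) := by
      have h2 : (1 : ℝ) ≤ ((3 : ℕ) + 1 : ℝ) ^ A := one_le_pow₀ (by norm_num)
      have h3 : (1 : ℝ) ≤ ((10 * D : ℕ) : ℝ) := by exact_mod_cast hC1
      nlinarith
    have := final (dg := 5) (s := 3) (by norm_num) (one_le_rad _) hC1 hrad2 hmain (by omega)
      hlogbig (h1.trans hlogbig)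
    push_cast at this
    exact this
  · rw [hx0, Int.natAbs_pow, Int.natAbs_natCast]
    exact lt_of_lt_of_le (by omega) (Nat.le_self_pow (by norm_num) X)

end Pool.Agent.W5h7.SNL
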