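import Pool.Agent.W5h7.SNL.Expo

set_option autoImplicit false

/-!
# Integers `X` such that `X` and `X - a` have small radicals
-/

namespace Pool.Agent.W5h7.SNL

open Finset

theorem exists_prod {m : ℕ} (hm : 1 ≤ m) {L : ℕ} (hL : 1 ≤ L) {a : ℤ} (ha : a ≠ 0) (c₀ : ℤ) :
    ∃ q : ℕ, q.Prime ∧ ∃ K : ℕ, ∀ s : ℕ, |a| < (q : ℤ) ^ s → ∃ X ρ : ℕ,
      0 < X ∧ (L : ℤ) ∣ X - c₀ ∧ ((q : ℤ) ^ s) ^ (2 * m + 1) ∣ X - a ∧ 0 < ρ ∧
      (∀ p : ℕ, p.Prime → p ∣ X → p ∣ ρ) ∧ ρ ≤ K * (q ^ s) ^ (m + 1) ∧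
      Real.log X ≤ K * ((q : ℝ) ^ s) ^ 3 ∧ (q : ℤ) ^ s ≤ X + |a| := by
  set al : Fin m → ℤ := fun i => (L : ℤ) * ((i : ℕ) + 1) with hal
  have ha0 : ∀ i, al i ≠ 0 := by
    intro i
    have h1 : (0 : ℤ) < L := by exact_mod_cast hL
    simp only [hal]
    positivity
  have hinj : Function.Injective al := by
    intro i j hij
    have h1 : (L : ℤ) ≠ 0 := by
      have : (0 : ℤ) < L := by exact_mod_cast hL
      exact this.ne'
    simp only [hal] at hij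
    have h2 := mul_left_cancel₀ h1 hij
    apply Fin.ext
    omega
  obtain ⟨Δ, C, hΔ, hex⟩ := exists_exponents hm ha0 hinj
  set N0 : ℕ := Δ.natAbs * (2 * m).factorial * L * a.natAbs with hN0
  have hN0pos : 0 < N0 := by
    have h1 : 0 < Δ.natAbs := Int.natAbs_pos.2 hΔ
    have h2 : 0 < (2 * m).factorial := Nat.factorial_pos _
    have h3 : 0 < a.natAbs := Int.natAbs_pos.2 ha
    positivity
  obtain ⟨q, hqN, hq⟩ := Nat.exists_infinite_primes (N0 + 1)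
  have hcopN : Nat.Coprime q N0 := Nat.coprime_of_lt_prime hN0pos.ne' (by omega) hq
  have hcop : ∀ (y : ℤ), y.natAbs ∣ N0 → ∀ s : ℕ, IsCoprime ((q : ℤ) ^ s) y := by
    intro y hy s
    apply IsCoprime.pow_left
    rw [Int.isCoprime_iff_gcd_eq_one]
    exact Nat.Coprime.coprime_dvd_right hy hcopN
  have hq0 : 0 < q := hq.pos
  set K1 : ℕ := (a.natAbs + 2 * L) * (1 + L * m) ^ m with hK1
  set K2 : ℕ := (a.natAbs + 2 * L) + m * (C * (1 + L * m)) with hK2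
  refine ⟨q, hq, K1 + K2, fun s hs => ?_⟩
  set Zn : ℕ := q ^ s with hZn
  have hZn1 : 1 ≤ Zn := Nat.one_le_pow _ _ hq0
  set Z : ℤ := (q : ℤ) ^ s with hZ
  have hZZn : (Zn : ℤ) = Z := by rw [hZn, hZ]; push_cast; rfl
  have hZ1 : 1 ≤ Z := by rw [← hZZn]; exact_mod_cast hZn1
  have hcopL : IsCoprime Z (L : ℤ) := hcop _ (by
    rw [Int.natAbs_natCast, hN0]
    exact Dvd.dvd.mul_right (Dvd.dvd.mul_left dvd_rfl _) _) s
  have hcopa : IsCoprime Z a := hcop _ (by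
    rw [hN0]
    exact Dvd.dvd.mul_left dvd_rfl _) s
  have hcopF : IsCoprime Z (((2 * m).factorial : ℕ) : ℤ) := hcop _ (by
    rw [Int.natAbs_natCast, hN0]
    exact Dvd.dvd.mul_right (Dvd.dvd.mul_right (Dvd.dvd.mul_left dvd_rfl _) _) _) s
  have hcopΔ : IsCoprime Z Δ := hcop _ (by
    rw [hN0]
    exact Dvd.dvd.mul_right (Dvd.dvd.mul_right (Dvd.dvd.mul_right dvd_rfl _) _) _) s
  -- the number `r₀`
  obtain ⟨v, v', hv⟩ := hcopL
  have hL0 : (0 : ℤ) < L := by exact_mod_cast hL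
  set t0 : ℤ := ((c₀ - a) * v) % L + L with ht0
  have ht1 : (L : ℤ) ≤ t0 := by
    have := Int.emod_nonneg ((c₀ - a) * v) hL0.ne'
    linarith
  have ht2 : t0 ≤ 2 * L := by
    have := Int.emod_lt_of_pos ((c₀ - a) * v) hL0
    linarith
  obtain ⟨r0, hr0⟩ : ∃ r0 : ℕ, (r0 : ℤ) = a + t0 * Z := by
    refine ⟨(a + t0 * Z).toNat, Int.toNat_of_nonneg ?_⟩
    have h1 := neg_abs_le a
    have h2 : 1 * Z ≤ t0 * Z := mul_le_mul_of_nonneg_right (by linarith) (by linarith)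
    linarith
  have hr0pos : 0 < r0 := by
    have h1 := neg_abs_le a
    have h2 : 1 * Z ≤ t0 * Z := mul_le_mul_of_nonneg_right (by linarith) (by linarith)
    have h3 : (0 : ℤ) < r0 := by rw [hr0]; linarith
    exact_mod_cast h3
  have hr0Z : Z ≤ r0 + |a| := by
    have h1 := neg_abs_le a
    have h2 : 1 * Z ≤ t0 * Z := mul_le_mul_of_nonneg_right (by linarith) (by linarith)
    rw [hr0]; linarith
  have hr0L : (L : ℤ) ∣ r0 - c₀ := by
    have h1 : (L : ℤ) ∣ t0 - (c₀ - a) * v := by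
      refine ⟨1 - ((c₀ - a) * v) / L, ?_⟩
      have := Int.emod_add_mul_ediv ((c₀ - a) * v) L
      rw [ht0]
      linear_combination this
    obtain ⟨w, hw⟩ := h1
    refine ⟨w * Z - (c₀ - a) * v', ?_⟩
    have e1 : t0 = (c₀ - a) * v + L * w := by linarith
    have e2 : v * Z = 1 - v' * L := by linarith
    calc (r0 : ℤ) - c₀ = a + ((c₀ - a) * v + L * w) * Z - c₀ := by rw [hr0, e1]
      _ = (c₀ - a) * (v * Z) + L * w * Z - (c₀ - a) := by ring
      _ = _ := by rw [e2]; ring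
  have hr0le : r0 ≤ (a.natAbs + 2 * L) * Zn := by
    have h1 : (r0 : ℤ) ≤ ((a.natAbs + 2 * L : ℕ) : ℤ) * Zn := by
      rw [hr0, hZZn]
      push_cast
      have h2 := le_abs_self a
      have h3 : t0 * Z ≤ 2 * L * Z := mul_le_mul_of_nonneg_right ht2 (by linarith)
      have h4 : |a| * 1 ≤ |a| * Z := mul_le_mul_of_nonneg_left hZ1 (abs_nonneg a)
      calc a + t0 * Z ≤ |a| * Z + 2 * L * Z := by linarith
        _ = _ := by ring
    exact_mod_cast h1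
  have hcopr : IsCoprime (Z ^ (2 * m + 1)) (r0 : ℤ) := by
    apply IsCoprime.pow_left
    rw [hr0]
    have := hcopa.add_mul_left_right t0
    rwa [mul_comm Z t0] at this
  obtain ⟨u', u, hu⟩ := hcopr
  have huZ : Z ∣ a * u - 1 := by
    refine ⟨-(u' * Z ^ (2 * m)) - t0 * u, ?_⟩
    have e1 : a = r0 - t0 * Z := by linarith
    have e2 : u * r0 = 1 - u' * Z ^ (2 * m + 1) := by linarith
    calc a * u - 1 = u * r0 - t0 * Z * u - 1 := by rw [e1]; ring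
      _ = _ := by rw [e2]; ring
  -- the exponents
  obtain ⟨e, he1, he2⟩ := hex Z hZ1 hcopΔ (lg (2 * m) (a * u)) (dvd_lg _ huZ)
  set r : Fin m → ℕ := fun i => 1 + L * ((i : ℕ) + 1) * Zn with hr
  have hrZ : ∀ i, ((r i : ℕ) : ℤ) = 1 + al i * Z := by
    intro i
    simp only [hr, hal]
    rw [← hZZn]
    push_cast
    ring
  have hrpos : ∀ i, 0 < r i := fun i => by simp only [hr]; omega
  have hrle : ∀ i, r i ≤ (1 + L * m) * Zn := by
    intro i
    have h1 : (i : ℕ) + 1 ≤ m := i.2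
    calc r i = 1 + L * ((i : ℕ) + 1) * Zn := rfl
      _ ≤ Zn + L * m * Zn := by
          have : L * ((i : ℕ) + 1) * Zn ≤ L * m * Zn := by gcongr
          omega
      _ = (1 + L * m) * Zn := by ring
  have hPdvd : Z ^ (2 * m + 1) ∣ (∏ i, (r i : ℤ) ^ e i) - a * u := by
    refine lg_inj (2 * m) (by omega) hcopF ?_ huZ ?_
    · refine dvd_prod_sub_one _ _ fun i _ => dvd_pow_sub_one ?_ _
      rw [hrZ]
      exact ⟨al i, by ring⟩
    · have h1 := lg_prod univ (2 * m) (Z := Z) (fun i => (r i : ℤ)) e (fun i _ => by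
        rw [hrZ]
        exact ⟨al i, by ring⟩)
      have e1 : lg (2 * m) (∏ i, (r i : ℤ) ^ e i) - lg (2 * m) (a * u) =
          (lg (2 * m) (∏ i, (r i : ℤ) ^ e i) - ∑ i, (e i : ℤ) * lg (2 * m) (r i : ℤ)) +
          (∑ i, (e i : ℤ) * lg (2 * m) (1 + al i * Z) - lg (2 * m) (a * u)) := by
        have e2 : ∑ i, (e i : ℤ) * lg (2 * m) (r i : ℤ) =
            ∑ i, (e i : ℤ) * lg (2 * m) (1 + al i * Z) :=
          sum_congr rfl fun i _ => by rw [hrZ]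
        rw [e2]; ring
      rw [e1]
      exact dvd_add h1 he2
  set P : ℕ := ∏ i, r i ^ e i with hP
  have hPpos : 0 < P := prod_pos fun i _ => pow_pos (hrpos i) _
  have hPcast : (P : ℤ) = ∏ i, (r i : ℤ) ^ e i := by rw [hP]; push_cast; rfl
  rw [← hPcast] at hPdvd
  refine ⟨r0 * P, r0 * ∏ i, r i, Nat.mul_pos hr0pos hPpos, ?_, ?_, ?_, ?_, ?_, ?_, ?_⟩
  · -- residue modulo `L`
    have h1 : (L : ℤ) ∣ (P : ℤ) - 1 := by
      rw [hPcast]
      refine dvd_prod_sub_one _ _ fun i _ => dvd_pow_sub_one ?_ _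
      rw [hrZ, hal]
      exact ⟨((i : ℕ) + 1) * Z, by ring⟩
    have e1 : ((r0 * P : ℕ) : ℤ) - c₀ = r0 * (P - 1) + (r0 - c₀) := by push_cast; ring
    rw [e1]
    exact dvd_add (Dvd.dvd.mul_left h1 _) hr0L
  · obtain ⟨w, hw⟩ := hPdvd
    refine ⟨r0 * w - a * u', ?_⟩
    have e1 : (P : ℤ) = a * u + Z ^ (2 * m + 1) * w := by linarith
    have e2 : u * r0 = 1 - u' * Z ^ (2 * m + 1) := by linarith
    calc ((r0 * P : ℕ) : ℤ) - a = a * (u * r0) + Z ^ (2 * m + 1) * (r0 * w) - a := by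
          push_cast; rw [e1]; ring
      _ = _ := by rw [e2]; ring
  · exact Nat.mul_pos hr0pos (prod_pos fun i _ => hrpos i)
  · intro p hp hpX
    rcases hp.dvd_mul.1 hpX with h1 | h1
    · exact Dvd.dvd.mul_right h1 _
    · obtain ⟨i, _, hi⟩ := (Nat.Prime.prime hp).exists_mem_finset_dvd h1
      exact Dvd.dvd.mul_left ((hp.dvd_of_dvd_pow hi).trans (dvd_prod_of_mem _ (mem_univ i))) _
  · have h1 : ∏ i, r i ≤ ((1 + L * m) * Zn) ^ m := by
      calc ∏ i, r i ≤ ∏ _i : Fin m, (1 + L * m) * Zn := prod_le_prod' fun i _ => hrle i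
        _ = ((1 + L * m) * Zn) ^ m := by rw [prod_const, card_univ, Fintype.card_fin]
    calc r0 * ∏ i, r i ≤ ((a.natAbs + 2 * L) * Zn) * ((1 + L * m) * Zn) ^ m :=
          Nat.mul_le_mul hr0le h1
      _ = K1 * Zn ^ (m + 1) := by rw [hK1, mul_pow]; ring
      _ ≤ (K1 + K2) * Zn ^ (m + 1) := Nat.mul_le_mul_right _ (Nat.le_add_right _ _)
  · have hZR : ((Zn : ℕ) : ℝ) = (q : ℝ) ^ s := by rw [hZn]; push_cast; rfl
    rw [← hZR]
    have hZR1 : (1 : ℝ) ≤ (Zn : ℝ) := by exact_mod_cast hZn1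
    have hr0R : (0 : ℝ) < r0 := by exact_mod_cast hr0pos
    have hPR : (0 : ℝ) < P := by exact_mod_cast hPpos
    have hlogr0 : Real.log r0 ≤ ((a.natAbs + 2 * L : ℕ) : ℝ) * (Zn : ℝ) ^ 3 := by
      have h1 : Real.log r0 ≤ r0 := Real.log_le_self hr0R.le
      have h2 : (r0 : ℝ) ≤ ((a.natAbs + 2 * L : ℕ) : ℝ) * Zn := by exact_mod_cast hr0le
      have h3 : (Zn : ℝ) ≤ (Zn : ℝ) ^ 3 := le_self_pow₀ hZR1 (by norm_num)
      exact h1.trans (h2.trans (mul_le_mul_of_nonneg_left h3 (Nat.cast_nonneg _)))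
    have hlogP : Real.log P ≤ ((m * (C * (1 + L * m)) : ℕ) : ℝ) * (Zn : ℝ) ^ 3 := by
      rw [hP]
      push_cast
      rw [Real.log_prod fun i _ => (pow_pos (by exact_mod_cast hrpos i) _).ne']
      have h1 : ∀ i ∈ (univ : Finset (Fin m)), Real.log ((r i : ℝ) ^ e i) ≤
          (C : ℝ) * (1 + L * m) * (Zn : ℝ) ^ 3 := by
        intro i _
        rw [Real.log_pow]
        have hri : (0 : ℝ) < r i := by exact_mod_cast hrpos i
        have h2 : Real.log (r i : ℝ) ≤ (1 + L * m) * Zn := by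
          have h3 : (r i : ℝ) ≤ (1 + L * m) * Zn := by exact_mod_cast hrle i
          exact (Real.log_le_self hri.le).trans h3
        have h4 : (e i : ℝ) ≤ C * (Zn : ℝ) ^ 2 := by
          have h5 := he1 i
          rw [← hZZn] at h5
          exact_mod_cast h5
        have h6 : 0 ≤ Real.log (r i : ℝ) :=
          Real.log_nonneg (by exact_mod_cast hrpos i)
        calc (e i : ℝ) * Real.log (r i : ℝ) ≤ (C * (Zn : ℝ) ^ 2) * ((1 + L * m) * Zn) :=
              mul_le_mul h4 h2 h6 (by positivity)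
          _ = _ := by ring
      calc ∑ i, Real.log ((r i : ℝ) ^ e i) ≤ ∑ _i : Fin m, (C : ℝ) * (1 + L * m) * (Zn : ℝ) ^ 3 :=
            sum_le_sum h1
        _ = _ := by rw [sum_const, card_univ, Fintype.card_fin, nsmul_eq_mul]; ring
    push_cast
    rw [Real.log_mul hr0R.ne' hPR.ne']
    have h7 : (0 : ℝ) ≤ (K1 : ℝ) * (Zn : ℝ) ^ 3 := by positivity
    have h8 : ((K2 : ℕ) : ℝ) = ((a.natAbs + 2 * L : ℕ) : ℝ) + ((m * (C * (1 + L * m)) : ℕ) : ℝ) := by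
      rw [hK2]; push_cast; ring
    calc Real.log r0 + Real.log P ≤ ((a.natAbs + 2 * L : ℕ) : ℝ) * (Zn : ℝ) ^ 3 +
          ((m * (C * (1 + L * m)) : ℕ) : ℝ) * (Zn : ℝ) ^ 3 := add_le_add hlogr0 hlogP
      _ = (K2 : ℝ) * (Zn : ℝ) ^ 3 := by rw [h8]; ring
      _ ≤ ((K1 : ℝ) + K2) * (Zn : ℝ) ^ 3 := by nlinarith
  · have h1 : (r0 : ℤ) ≤ ((r0 * P : ℕ) : ℤ) := by
      exact_mod_cast Nat.le_mul_of_pos_right _ hPpos
    linarith

/-- **Small radicals of `X` and `X - a`.** For all `L ≥ 1`, `a ≠ 0`, `c₀`, `A` there are arbitrarily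
large `X ≡ c₀` modulo `L` with `rad X * rad (X - a) * (log X) ^ A ≤ X`. -/
theorem exists_small {L : ℕ} (hL : 1 ≤ L) {a : ℤ} (ha : a ≠ 0) (c₀ : ℤ) (A B : ℕ) :
    ∃ X ρ σ : ℕ, B < X ∧ (L : ℤ) ∣ X - c₀ ∧ 0 < ρ ∧ 0 < σ ∧
      (∀ p : ℕ, p.Prime → p ∣ X → p ∣ ρ) ∧ (∀ p : ℕ, p.Prime → (p : ℤ) ∣ X - a → p ∣ σ) ∧
      (ρ : ℝ) * σ * Real.log X ^ A ≤ X := by
  obtain ⟨q, hq, K, hK⟩ := exists_prod (m := 3 * A + 1) (by omega) hL ha c₀
  set s : ℕ := 2 * a.natAbs + B + 2 * q * K ^ (A + 1) + 1 with hs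
  have hZs : s < q ^ s := Nat.lt_pow_self hq.one_lt
  set Zn : ℕ := q ^ s with hZn
  have hZn1 : 1 ≤ Zn := Nat.one_le_pow _ _ hq.pos
  have hZZn : (Zn : ℤ) = (q : ℤ) ^ s := by rw [hZn]; push_cast; rfl
  have hZR : ((Zn : ℕ) : ℝ) = (q : ℝ) ^ s := by rw [hZn]; push_cast; rfl
  have habs : ((a.natAbs : ℕ) : ℤ) = |a| := Int.natCast_natAbs a
  have hsZ : (s : ℤ) < Zn := by exact_mod_cast hZs
  have hlt : |a| < (q : ℤ) ^ s := by
    rw [← hZZn, ← habs]
    have : a.natAbs < Zn := by omega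
    exact_mod_cast this
  obtain ⟨X, ρ, hX0, hXL, ⟨w, hw⟩, hρ0, hρp, hρ, hlog, hXZ⟩ := hK s hlt
  rw [← hZZn, ← habs] at hXZ
  have hXZ' : Zn ≤ X + a.natAbs := by exact_mod_cast hXZ
  have hXB : B + a.natAbs < X := by omega
  have hw0 : w ≠ 0 := by
    rintro rfl
    rw [mul_zero] at hw
    have h1 : (X : ℤ) = a := by linarith
    have h2 : (X : ℤ) ≤ |a| := by rw [h1]; exact le_abs_self a
    rw [← habs] at h2
    have h3 : X ≤ a.natAbs := by exact_mod_cast h2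
    omega
  refine ⟨X, ρ, q * w.natAbs, by omega, hXL, hρ0, Nat.mul_pos hq.pos (Int.natAbs_pos.2 hw0), hρp,
    ?_, ?_⟩
  · intro p hp hpd
    rw [hw] at hpd
    have hpI := Nat.prime_iff_prime_int.mp hp
    rcases hpI.dvd_or_dvd hpd with h1 | h1
    · have h2 := hpI.dvd_of_dvd_pow (hpI.dvd_of_dvd_pow h1)
      have h3 : p ∣ q := by exact_mod_cast h2
      exact Dvd.dvd.mul_right h3 _
    · exact Dvd.dvd.mul_left (Int.natCast_dvd.mp h1) _
  · set m : ℕ := 3 * A + 1 with hm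
    have hX0R : (0 : ℝ) < X := by exact_mod_cast hX0
    have hZ1R : (1 : ℝ) ≤ (Zn : ℝ) := by exact_mod_cast hZn1
    have hZ0R : (0 : ℝ) < (Zn : ℝ) := by linarith
    have hw1 : ((w.natAbs : ℕ) : ℝ) * (Zn : ℝ) ^ (2 * m + 1) ≤ 2 * X := by
      have h1 : ((w.natAbs : ℕ) : ℤ) * (Zn : ℤ) ^ (2 * m + 1) ≤ 2 * X := by
        have h2 : |(X : ℤ) - a| = (Zn : ℤ) ^ (2 * m + 1) * |w| := by
          rw [hw, abs_mul, hZZn, abs_of_nonneg (by positivity)]
        have h3 : |(X : ℤ) - a| ≤ X + |a| := by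
          calc |(X : ℤ) - a| ≤ |(X : ℤ)| + |a| := abs_sub _ _
            _ = X + |a| := by rw [abs_of_nonneg (by positivity)]
        have h4 : |a| ≤ X := by
          rw [← habs]
          have : a.natAbs ≤ X := by omega
          exact_mod_cast this
        rw [Int.natCast_natAbs, mul_comm, ← h2]
        linarith
      exact_mod_cast h1
    have hlog' : Real.log X ^ A ≤ (K : ℝ) ^ A * (Zn : ℝ) ^ (3 * A) := by
      have h1 : 0 ≤ Real.log X := Real.log_nonneg (by exact_mod_cast hX0)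
      rw [← hZR] at hlog
      calc Real.log X ^ A ≤ (K * (Zn : ℝ) ^ 3) ^ A := pow_le_pow_left₀ h1 hlog A
        _ = _ := by rw [mul_pow, ← pow_mul]
    have hlog0 : 0 ≤ Real.log X ^ A :=
      pow_nonneg (Real.log_nonneg (by exact_mod_cast hX0)) A
    have hρR : (ρ : ℝ) ≤ K * (Zn : ℝ) ^ (m + 1) := by exact_mod_cast hρ
    have hbig : 2 * (q : ℝ) * (K : ℝ) ^ (A + 1) ≤ Zn := by
      have : 2 * q * K ^ (A + 1) ≤ Zn := by omega
      exact_mod_cast this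
    have key : ((ρ : ℝ) * ((q * w.natAbs : ℕ) : ℝ) * Real.log X ^ A) * (Zn : ℝ) ^ (2 * m + 1) ≤
        X * (Zn : ℝ) ^ (2 * m + 1) := by
      calc ((ρ : ℝ) * ((q * w.natAbs : ℕ) : ℝ) * Real.log X ^ A) * (Zn : ℝ) ^ (2 * m + 1)
          = ρ * (q * (w.natAbs * (Zn : ℝ) ^ (2 * m + 1))) * Real.log X ^ A := by
            push_cast; ring
        _ ≤ (K * (Zn : ℝ) ^ (m + 1)) * (q * (2 * X)) * ((K : ℝ) ^ A * (Zn : ℝ) ^ (3 * A)) := by
            gcongr
        _ = (2 * q * K ^ (A + 1)) * X * (Zn : ℝ) ^ (m + 1 + 3 * A) := by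
            rw [pow_add (Zn : ℝ) (m + 1)]; ring
        _ ≤ Zn * X * (Zn : ℝ) ^ (m + 1 + 3 * A) := by gcongr
        _ = X * (Zn : ℝ) ^ (2 * m + 1) := by
            have e : 2 * m + 1 = (m + 1 + 3 * A) + 1 := by omega
            rw [e, pow_succ]; ring
    exact le_of_mul_le_mul_right key (by positivity)

end Pool.Agent.W5h7.SNL
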